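import Mathlib
import Pool.Agent.Helper602.MK.J3

/-!
# The sum of `p ^ (-1 - ε)` over the primes in an arithmetic progression, beyond the modulus
-/

set_option autoImplicit false

namespace Pool.Agent.L0h50.DL

open Finset

theorem half_eps (ε : ℝ) (h0 : 0 ≤ ε) (h1 : ε ≤ 1) : ε / 2 ≤ 1 - (2 : ℝ) ^ (-ε) := by
  have h2 : (2 : ℝ) ^ (-ε) ≤ 1 - ε / 2 := by
    have h3 : (2 : ℝ) ^ (-ε) = (1 + (-(1 / 2) : ℝ)) ^ ε := by
      rw [Real.rpow_neg (by norm_num), ← Real.inv_rpow (by norm_num)]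
      norm_num
    rw [h3]
    have := rpow_one_add_le_one_add_mul_self (s := -(1 / 2)) (p := ε) (by norm_num) h0 h1
    linarith
  linarith

theorem log_sum (ε : ℝ) (h0 : 0 < ε) (h1 : ε ≤ 1) (L : ℕ) :
    ∑ m ∈ range L, ((2 : ℝ) ^ (-ε)) ^ m / (m + 1) ≤ 2 * (1 + Real.log (1 / ε)) := by
  set x : ℝ := (2 : ℝ) ^ (-ε) with hx
  have hx0 : 0 < x := by positivity
  have hx1 : x < 1 := by
    have := half_eps ε h0.le h1
    linarith
  have hx2 : 1 / 2 ≤ x := by
    rw [hx]
    calc (1 : ℝ) / 2 = (2 : ℝ) ^ (-1 : ℝ) := by rw [Real.rpow_neg_one]; norm_num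
      _ ≤ _ := Real.rpow_le_rpow_of_exponent_le (by norm_num) (by linarith)
  have h3 := Real.hasSum_pow_div_log_of_abs_lt_one (x := x) (by rw [abs_of_pos hx0]; exact hx1)
  have h4 : ∑ m ∈ range L, x ^ (m + 1) / (m + 1) ≤ -Real.log (1 - x) :=
    sum_le_hasSum _ (fun m _ => by positivity) h3
  have h5 : ∑ m ∈ range L, x ^ m / (m + 1) ≤ 2 * ∑ m ∈ range L, x ^ (m + 1) / (m + 1) := by
    rw [Finset.mul_sum]
    refine Finset.sum_le_sum fun m _ => ?_
    rw [pow_succ, ← mul_div_assoc]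
    apply div_le_div_of_nonneg_right _ (by positivity)
    have : 0 ≤ x ^ m := by positivity
    nlinarith
  have h6 : -Real.log (1 - x) ≤ Real.log (2 / ε) := by
    rw [← Real.log_inv]
    apply Real.log_le_log (inv_pos.mpr (by linarith))
    rw [inv_le_comm₀ (by linarith) (by positivity), inv_div]
    exact half_eps ε h0.le h1
  have h7 : Real.log (2 / ε) ≤ 1 + Real.log (1 / ε) := by
    rw [show (2 : ℝ) / ε = 2 * (1 / ε) by ring, Real.log_mul (by norm_num) (by positivity)]
    have := Real.log_two_lt_d9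
    linarith
  calc _ ≤ _ := h5
    _ ≤ 2 * (-Real.log (1 - x)) := by gcongr
    _ ≤ _ := by linarith

/-- **The sum over the primes in an arithmetic progression, beyond the modulus.** -/
theorem class_sum : ∃ C : ℝ, 1 ≤ C ∧ ∀ (a q : ℕ), 1 ≤ q → ∀ ε : ℝ, 0 < ε → ε ≤ 1 →
    ∀ S : Finset ℕ, (∀ p ∈ S, p.Prime ∧ q < p ∧ p % q = a) →
      ∑ p ∈ S, (p : ℝ) ^ (-1 - ε) ≤ C / (Nat.totient q : ℝ) * (1 + Real.log (1 / ε)) := by
  obtain ⟨C, hC1, hC⟩ := Pool.Agent.Helper602.MK.BTLib.brun_titchmarsh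
  refine ⟨8 * C, by linarith, fun a q hq ε h0 h1 S hS => ?_⟩
  have hq0 : (0 : ℝ) < q := by exact_mod_cast hq
  have hphi : (0 : ℝ) < Nat.totient q := by exact_mod_cast Nat.totient_pos.2 hq
  have hk : ∀ p ∈ S, 1 ≤ p / q := by
    intro p hp
    exact (Nat.one_le_div_iff (by omega)).mpr (hS p hp).2.1.le
  set L := S.sup (fun p => Nat.log 2 (p / q)) + 1 with hL
  have hmaps : ∀ p ∈ S, Nat.log 2 (p / q) ∈ range L := by
    intro p hp
    rw [Finset.mem_range]
    have := Finset.le_sup (f := fun p => Nat.log 2 (p / q)) hp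
    omega
  rw [← Finset.sum_fiberwise_of_maps_to hmaps]
  have h2 : ∀ m ∈ range L, ∑ p ∈ S with Nat.log 2 (p / q) = m, (p : ℝ) ^ (-1 - ε) ≤
      4 * C / (Nat.totient q : ℝ) * (((2 : ℝ) ^ (-ε)) ^ m / (m + 1)) := by
    intro m _
    have hm0 : (0 : ℝ) < (m : ℝ) + 1 := by positivity
    set S' := S.filter (fun p => Nat.log 2 (p / q) = m) with hS'
    have hcard : (S'.card : ℝ) ≤ C * ((q : ℝ) / (Nat.totient q : ℝ)) * (2 : ℝ) ^ (m + 1) /
        Real.log ((2 : ℝ) ^ (m + 1)) := by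
      have h3 := hC a q (2 ^ (m + 1)) hq (by
        calc 2 = 2 ^ 1 := by norm_num
          _ ≤ 2 ^ (m + 1) := Nat.pow_le_pow_right (by norm_num) (by omega))
      push_cast at h3
      refine le_trans ?_ h3
      have h4 : S'.card ≤ ((Finset.range (2 ^ (m + 1))).filter (fun k => (a + k * q).Prime)).card := by
        apply Finset.card_le_card_of_injOn (fun p => p / q)
        · intro p hp
          rw [Finset.mem_coe, hS', Finset.mem_filter] at hp
          have hmod := (hS p hp.1).2.2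
          have hpr := (hS p hp.1).1
          have hdm := Nat.mod_add_div p q
          simp only [Finset.coe_filter, Finset.mem_range, Set.mem_setOf_eq]
          refine ⟨?_, ?_⟩
          · rw [← hp.2]
            exact Nat.lt_pow_succ_log_self (by norm_num) _
          · rw [← hmod, mul_comm, hdm]
            exact hpr
        · intro p hp p' hp' hpp
          rw [Finset.mem_coe, hS', Finset.mem_filter] at hp hp'
          have e1 := Nat.mod_add_div p q
          have e2 := Nat.mod_add_div p' q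
          simp only at hpp
          rw [← e1, ← e2, (hS p hp.1).2.2, (hS p' hp'.1).2.2, hpp]
      exact_mod_cast h4
    have hval : ∀ p ∈ S', (p : ℝ) ^ (-1 - ε) ≤ 1 / (q * 2 ^ m) * ((2 : ℝ) ^ (-ε)) ^ m := by
      intro p hp
      rw [hS', Finset.mem_filter] at hp
      have hkp := hk p hp.1
      have h5 : 2 ^ m ≤ p / q := by
        rw [← hp.2]
        exact Nat.pow_log_le_self 2 (by omega)
      have h6 : q * 2 ^ m ≤ p := by
        calc q * 2 ^ m ≤ q * (p / q) := Nat.mul_le_mul_left q h5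
          _ ≤ p := Nat.mul_div_le p q
      have h7 : (q : ℝ) * 2 ^ m ≤ p := by exact_mod_cast h6
      have hq1 : (1 : ℝ) ≤ q := by exact_mod_cast hq
      have h2m : (0 : ℝ) < 2 ^ m := by positivity
      calc (p : ℝ) ^ (-1 - ε) ≤ ((q : ℝ) * 2 ^ m) ^ (-1 - ε) :=
            Real.rpow_le_rpow_of_nonpos (by positivity) h7 (by linarith)
        _ = ((q : ℝ) * 2 ^ m) ^ (-1 : ℝ) * ((q : ℝ) * 2 ^ m) ^ (-ε) := by
            rw [← Real.rpow_add (by positivity)]
            congr 1
        _ ≤ ((q : ℝ) * 2 ^ m) ^ (-1 : ℝ) * ((2 : ℝ) ^ m) ^ (-ε) := by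
            apply mul_le_mul_of_nonneg_left _ (by positivity)
            apply Real.rpow_le_rpow_of_nonpos (by positivity) _ (by linarith)
            nlinarith
        _ = _ := by
            rw [Real.rpow_neg_one, one_div, ← Real.rpow_natCast, ← Real.rpow_natCast, ← Real.rpow_mul
              (by norm_num), ← Real.rpow_mul (by norm_num)]
            congr 2
            ring
    refine (Finset.sum_le_card_nsmul _ _ _ hval).trans ?_
    rw [nsmul_eq_mul]
    have hlog : Real.log ((2 : ℝ) ^ (m + 1)) = (m + 1) * Real.log 2 := by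
      rw [Real.log_pow]
      push_cast
      ring
    have hl2 : (1 : ℝ) / 2 ≤ Real.log 2 := by
      have := Real.log_two_gt_d9
      linarith
    rw [hlog] at hcard
    have hx : (0 : ℝ) < ((2 : ℝ) ^ (-ε)) ^ m := by positivity
    calc _ ≤ (C * ((q : ℝ) / (Nat.totient q : ℝ)) * (2 : ℝ) ^ (m + 1) / ((m + 1) * Real.log 2)) *
          (1 / (q * 2 ^ m) * ((2 : ℝ) ^ (-ε)) ^ m) := by gcongr
      _ ≤ (C * ((q : ℝ) / (Nat.totient q : ℝ)) * (2 : ℝ) ^ (m + 1) / ((m + 1) * (1 / 2))) *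
          (1 / (q * 2 ^ m) * ((2 : ℝ) ^ (-ε)) ^ m) := by gcongr
      _ = _ := by
          rw [pow_succ (2 : ℝ) m]
          field_simp
          ring
  refine (Finset.sum_le_sum h2).trans ?_
  rw [← Finset.mul_sum]
  have h3 := log_sum ε h0 h1 L
  calc _ ≤ 4 * C / (Nat.totient q : ℝ) * (2 * (1 + Real.log (1 / ε))) := by gcongr
    _ = _ := by ring

end Pool.Agent.L0h50.DL
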