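import Mathlib
import Pool.Agent.L0h50.DL.BT
import Pool.Agent.Y722.HS.LSum

/-!
# Second moments over the Dirichlet characters of a modulus
-/

set_option autoImplicit false

namespace Pool.Agent.L0h50.DL

open Finset Pool.Agent.Y722.HS

section
variable {q : ℕ} [NeZero q]

theorem char_pair (a b : ZMod q) : ∑ χ : DirichletCharacter ℂ q, χ b * star (χ a) =
    if IsUnit a ∧ a = b then (q.totient : ℂ) else 0 := by
  by_cases ha : IsUnit a
  · have h1 := DirichletCharacter.sum_char_inv_mul_char_eq ℂ ha b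
    have h2 : ∀ χ : DirichletCharacter ℂ q, χ b * star (χ a) = χ a⁻¹ * χ b := by
      intro χ
      rw [MulChar.star_apply', MulChar.inv_apply_eq_inv']
      have h3 : χ a * χ a⁻¹ = 1 := by
        rw [← map_mul, ZMod.mul_inv_of_unit a ha, map_one]
      rw [inv_eq_of_mul_eq_one_right h3, mul_comm]
    rw [Finset.sum_congr rfl fun χ _ => h2 χ, h1]
    simp [ha]
  · have h2 : ∀ χ : DirichletCharacter ℂ q, χ b * star (χ a) = 0 := by
      intro χ
      rw [χ.map_nonunit ha]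
      simp
    rw [Finset.sum_congr rfl fun χ _ => h2 χ]
    simp [ha]

/-- The average over the Dirichlet characters modulo `q`. -/
noncomputable def EC (q : ℕ) (f : DirichletCharacter ℂ q → ℝ) : ℝ := (∑ χ, f χ) / (q.totient : ℝ)

omit [NeZero q] in
theorem EC_mono {f g : DirichletCharacter ℂ q → ℝ} (h : ∀ χ, f χ ≤ g χ) : EC q f ≤ EC q g := by
  unfold EC
  have := Finset.sum_le_sum fun χ (_ : χ ∈ Finset.univ) => h χ
  gcongr

omit [NeZero q] in
theorem EC_add (f g : DirichletCharacter ℂ q → ℝ) : EC q (fun χ => f χ + g χ) = EC q f + EC q g := by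
  simp [EC, Finset.sum_add_distrib, add_div]

omit [NeZero q] in
theorem EC_mul (t : ℝ) (f : DirichletCharacter ℂ q → ℝ) : EC q (fun χ => t * f χ) = t * EC q f := by
  simp [EC, ← Finset.mul_sum, mul_div_assoc]

theorem EC_const (t : ℝ) : EC q (fun _ => t) = t := by
  have h1 := DirichletCharacter.card_eq_totient_of_hasEnoughRootsOfUnity ℂ q
  have h2 : (q.totient : ℝ) ≠ 0 := by
    have := Nat.totient_pos.2 (Nat.pos_of_ne_zero (NeZero.ne q))
    positivity
  unfold EC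
  rw [Finset.sum_const, nsmul_eq_mul, Finset.card_univ, ← Nat.card_eq_fintype_card, h1]
  field_simp

open Classical in
theorem char_sq (S : Finset ℕ) (c : ℕ → ℂ) :
    EC q (fun χ => ‖∑ p ∈ S, c p * χ p‖ ^ 2) ≤
      ∑ p ∈ S, ∑ r ∈ S, if r % q = p % q then ‖c p‖ * ‖c r‖ else 0 := by
  have hphi : (0 : ℝ) < q.totient := by
    have := Nat.totient_pos.2 (Nat.pos_of_ne_zero (NeZero.ne q))
    positivity
  have h1 : (∑ χ : DirichletCharacter ℂ q, ‖∑ p ∈ S, c p * χ p‖ ^ 2 : ℝ) =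
      ‖∑ p ∈ S, ∑ r ∈ S, c p * star (c r) * ∑ χ : DirichletCharacter ℂ q, χ p * star (χ r)‖ := by
    have h2 : ((∑ χ : DirichletCharacter ℂ q, ‖∑ p ∈ S, c p * χ p‖ ^ 2 : ℝ) : ℂ) =
        ∑ p ∈ S, ∑ r ∈ S, c p * star (c r) * ∑ χ : DirichletCharacter ℂ q, χ p * star (χ r) := by
      push_cast
      have h3 : ∀ χ : DirichletCharacter ℂ q, ((‖∑ p ∈ S, c p * χ p‖ : ℂ)) ^ 2 =
          ∑ p ∈ S, ∑ r ∈ S, c p * star (c r) * (χ p * star (χ r)) := by
        intro χ
        rw [← Complex.mul_conj', map_sum, Finset.sum_mul_sum]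
        refine Finset.sum_congr rfl fun p _ => Finset.sum_congr rfl fun r _ => ?_
        rw [map_mul]
        simp only [RCLike.star_def]
        ring
      rw [Finset.sum_congr rfl fun χ _ => h3 χ, Finset.sum_comm]
      refine Finset.sum_congr rfl fun p _ => ?_
      rw [Finset.sum_comm]
      refine Finset.sum_congr rfl fun r _ => ?_
      rw [Finset.mul_sum]
    rw [← h2, Complex.norm_real, Real.norm_of_nonneg (Finset.sum_nonneg fun _ _ => by positivity)]
  unfold EC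
  rw [h1, div_le_iff₀ hphi, Finset.sum_mul]
  refine (norm_sum_le _ _).trans (Finset.sum_le_sum fun p _ => ?_)
  rw [Finset.sum_mul]
  refine (norm_sum_le _ _).trans (Finset.sum_le_sum fun r _ => ?_)
  rw [char_pair, norm_mul, norm_mul, norm_star]
  by_cases h : IsUnit (r : ZMod q) ∧ (r : ZMod q) = p
  · rw [if_pos h, if_pos ((ZMod.natCast_eq_natCast_iff' _ _ _).mp h.2), Complex.norm_natCast]
  · rw [if_neg h, norm_zero, mul_zero]
    split_ifs <;> positivity

/-- The tail of `∑ k ^ (-3/2)`. -/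
noncomputable def RT (y : ℕ) : ℝ := ∑' k : ℕ, 1 / ((k + (y + 1) : ℕ) : ℝ) ^ ((3 : ℝ) / 2)

theorem summable_32 : Summable fun k : ℕ => 1 / (k : ℝ) ^ ((3 : ℝ) / 2) :=
  Real.summable_one_div_nat_rpow.mpr (by norm_num)

theorem RT_nonneg (y : ℕ) : 0 ≤ RT y := tsum_nonneg fun _ => by positivity

theorem RT_tendsto : Filter.Tendsto RT Filter.atTop (nhds 0) := by
  have h := tendsto_sum_nat_add (fun k : ℕ => 1 / (k : ℝ) ^ ((3 : ℝ) / 2))
  exact h.comp (Filter.tendsto_add_atTop_nat 1)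

theorem sum_le_RT (y : ℕ) (S : Finset ℕ) (hS : ∀ p ∈ S, y < p) :
    ∑ p ∈ S, 1 / (p : ℝ) ^ ((3 : ℝ) / 2) ≤ RT y := by
  have h1 : Summable fun k : ℕ => 1 / ((k + (y + 1) : ℕ) : ℝ) ^ ((3 : ℝ) / 2) :=
    summable_32.comp_injective (fun a b h => by simpa using h)
  have h2 := h1.sum_le_tsum (S.image (fun p => p - (y + 1))) (fun _ _ => by positivity)
  refine le_trans (le_of_eq ?_) h2
  rw [Finset.sum_image]
  · refine Finset.sum_congr rfl fun p hp => ?_
    have := hS p hp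
    rw [Nat.sub_add_cancel (by omega)]
  · intro a ha b hb h
    have h3 := hS a ha
    have h4 := hS b hb
    simp only at h
    omega

/-- The primes between `y` and the modulus. -/
theorem small_part (b : ℕ) (y : ℕ) (A : ℕ → ℂ) (hA : ∀ p : ℕ, p.Prime → ‖A p‖ ≤ b) (ε : ℝ) (h0 : 0 ≤ ε)
    (S : Finset ℕ) (hS : ∀ p ∈ S, p.Prime ∧ y < p ∧ p ≤ q) :
    EC q (fun χ => ‖∑ p ∈ S, (A p * (((p : ℝ) ^ (-1 - ε) : ℝ) : ℂ)) * χ p‖ ^ 2) ≤ (b : ℝ) ^ 2 * RT y := by
  classical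
  refine (char_sq S _).trans ?_
  have h1 : ∀ p ∈ S, ∑ r ∈ S, (if r % q = p % q then ‖A p * (((p : ℝ) ^ (-1 - ε) : ℝ) : ℂ)‖ *
      ‖A r * (((r : ℝ) ^ (-1 - ε) : ℝ) : ℂ)‖ else 0) ≤ (b : ℝ) ^ 2 * (1 / (p : ℝ) ^ ((3 : ℝ) / 2)) := by
    intro p hp
    rw [Finset.sum_eq_single p]
    · rw [if_pos rfl]
      have hp1 : (1 : ℝ) ≤ p := by exact_mod_cast (hS p hp).1.one_lt.le
      have h2 : ‖A p * (((p : ℝ) ^ (-1 - ε) : ℝ) : ℂ)‖ ≤ b * (p : ℝ) ^ (-1 : ℝ) := by
        rw [norm_mul, Complex.norm_real, Real.norm_of_nonneg (by positivity)]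
        have := Real.rpow_le_rpow_of_exponent_le hp1 (show -1 - ε ≤ -1 by linarith)
        gcongr
        exact hA p (hS p hp).1
      calc _ ≤ (b * (p : ℝ) ^ (-1 : ℝ)) * (b * (p : ℝ) ^ (-1 : ℝ)) := by gcongr
        _ = (b : ℝ) ^ 2 * ((p : ℝ) ^ (-1 : ℝ) * (p : ℝ) ^ (-1 : ℝ)) := by ring
        _ ≤ _ := by
          apply mul_le_mul_of_nonneg_left _ (by positivity)
          rw [← Real.rpow_add (by linarith), one_div, ← Real.rpow_neg (by linarith)]
          exact Real.rpow_le_rpow_of_exponent_le hp1 (by norm_num)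
    · intro r hr hrp
      rw [if_neg]
      intro h
      apply hrp
      obtain ⟨-, h3, h4⟩ := hS p hp
      obtain ⟨-, h5, h6⟩ := hS r hr
      have hpp := (hS p hp).1.pos
      have hrr := (hS r hr).1.pos
      rcases h4.lt_or_eq with h4 | h4
      · rcases h6.lt_or_eq with h6 | h6
        · rw [Nat.mod_eq_of_lt h4, Nat.mod_eq_of_lt h6] at h
          exact h
        · rw [h6, Nat.mod_self, Nat.mod_eq_of_lt h4] at h
          omega
      · rcases h6.lt_or_eq with h6 | h6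
        · rw [h4, Nat.mod_self, Nat.mod_eq_of_lt h6] at h
          omega
        · omega
    · intro h
      exact absurd hp h
  refine (Finset.sum_le_sum h1).trans ?_
  rw [← Finset.mul_sum]
  exact mul_le_mul_of_nonneg_left (sum_le_RT y S fun p hp => (hS p hp).2.1) (by positivity)

/-- The primes beyond the modulus. -/
theorem large_part : ∃ C : ℝ, 1 ≤ C ∧ ∀ (q : ℕ) [NeZero q] (b : ℕ) (A : ℕ → ℂ),
    (∀ p : ℕ, p.Prime → ‖A p‖ ≤ b) → ∀ ε : ℝ, 0 < ε → ε ≤ 1 →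
    ∀ S : Finset ℕ, (∀ p ∈ S, p.Prime ∧ q < p) →
    EC q (fun χ => ‖∑ p ∈ S, (A p * (((p : ℝ) ^ (-1 - ε) : ℝ) : ℂ)) * χ p‖ ^ 2) ≤
      C * (b : ℝ) ^ 2 * (1 + Real.log (1 / ε)) ^ 2 / (q.totient : ℝ) := by
  classical
  obtain ⟨C, hC1, hC⟩ := class_sum
  refine ⟨C ^ 2, by nlinarith, fun q _ b A hA ε h0 h1 S hS => ?_⟩
  have hq1 : 1 ≤ q := Nat.pos_of_ne_zero (NeZero.ne q)
  have hphi : (0 : ℝ) < q.totient := by
    have := Nat.totient_pos.2 hq1
    positivity
  set M : ℝ := C / (q.totient : ℝ) * (1 + Real.log (1 / ε)) with hM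
  have hlog : 0 ≤ Real.log (1 / ε) := Real.log_nonneg (by rw [le_div_iff₀ h0]; linarith)
  have hM0 : 0 ≤ M := by positivity
  have hn : ∀ p ∈ S, ‖A p * (((p : ℝ) ^ (-1 - ε) : ℝ) : ℂ)‖ ≤ b * (p : ℝ) ^ (-1 - ε) := by
    intro p hp
    rw [norm_mul, Complex.norm_real, Real.norm_of_nonneg (by positivity)]
    gcongr
    exact hA p (hS p hp).1
  have hclass : ∀ a : ℕ, ∑ r ∈ S with r % q = a, (r : ℝ) ^ (-1 - ε) ≤ M := by
    intro a
    refine hC a q hq1 ε h0 h1 _ fun p hp => ?_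
    rw [Finset.mem_filter] at hp
    exact ⟨(hS p hp.1).1, (hS p hp.1).2, hp.2⟩
  refine (char_sq S _).trans ?_
  have h2 : ∀ p ∈ S, ∑ r ∈ S, (if r % q = p % q then ‖A p * (((p : ℝ) ^ (-1 - ε) : ℝ) : ℂ)‖ *
      ‖A r * (((r : ℝ) ^ (-1 - ε) : ℝ) : ℂ)‖ else 0) ≤ (b : ℝ) ^ 2 * M * (p : ℝ) ^ (-1 - ε) := by
    intro p hp
    rw [← Finset.sum_filter, ← Finset.mul_sum]
    have h3 : ∑ r ∈ S with r % q = p % q, ‖A r * (((r : ℝ) ^ (-1 - ε) : ℝ) : ℂ)‖ ≤ b * M := by
      calc _ ≤ ∑ r ∈ S with r % q = p % q, b * (r : ℝ) ^ (-1 - ε) :=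
            Finset.sum_le_sum fun r hr => hn r (Finset.mem_filter.mp hr).1
        _ ≤ _ := by
            rw [← Finset.mul_sum]
            exact mul_le_mul_of_nonneg_left (hclass _) (by positivity)
    calc _ ≤ (b * (p : ℝ) ^ (-1 - ε)) * (b * M) := by
          apply mul_le_mul (hn p hp) h3 (Finset.sum_nonneg fun _ _ => norm_nonneg _) (by positivity)
      _ = _ := by ring
  refine (Finset.sum_le_sum h2).trans ?_
  rw [← Finset.mul_sum]
  have h4 : ∑ p ∈ S, (p : ℝ) ^ (-1 - ε) ≤ (q.totient : ℝ) * M := by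
    have hmaps : ∀ p ∈ S, p % q ∈ (Finset.range q).filter (fun a => q.Coprime a) := by
      intro p hp
      rw [Finset.mem_filter, Finset.mem_range]
      refine ⟨Nat.mod_lt _ hq1, ?_⟩
      have h5 : Nat.Coprime q p := by
        rw [Nat.coprime_comm, (hS p hp).1.coprime_iff_not_dvd]
        intro h6
        exact absurd (Nat.le_of_dvd hq1 h6) (by have := (hS p hp).2; omega)
      have h6 : Nat.gcd q (p % q) = Nat.gcd q p := by
        rw [Nat.gcd_comm q (p % q), ← Nat.gcd_rec]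
      unfold Nat.Coprime
      rw [h6]
      exact h5
    rw [← Finset.sum_fiberwise_of_maps_to hmaps]
    refine (Finset.sum_le_card_nsmul _ _ M fun a _ => hclass a).trans ?_
    rw [nsmul_eq_mul, Nat.totient_eq_card_coprime]
  calc _ ≤ (b : ℝ) ^ 2 * M * ((q.totient : ℝ) * M) := by gcongr
    _ = _ := by
      rw [hM]
      field_simp

end

end Pool.Agent.L0h50.DL
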