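import Mathlib
import Pool.Agent.L0h50.DL.Char

/-!
# The random Euler product
-/

set_option autoImplicit false

namespace Pool.Agent.L0h50.DL

open Finset Pool.Agent.Y722.HS MeasureTheory Filter Topology

section
variable {b : ℕ}

/-- The logarithm of the Euler product over the primes up to `y`, with the values `z p` of a twist. -/
noncomputable def GY (w : ℕ → Fin b → ℂ) (z : ℕ → ℂ) (y : ℕ) (ε : ℝ) : ℂ :=
  ∑ p ∈ PR y, gl 1 (fun p j => z p * w p j) ε p

theorem bd1 {w : ℕ → Fin b → ℂ} (hw : ∀ p : ℕ, p.Prime → ∀ j, ‖w p j‖ ≤ 1) {z : ℕ → ℂ}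
    (hz : ∀ p, ‖z p‖ ≤ 1) : ∀ p : ℕ, p.Prime → ∀ j, ‖z p * w p j‖ ≤ (p : ℝ) ^ ((((1 : ℕ) : ℝ) - 1) / 2) := by
  intro p hp j
  have e : (((1 : ℕ) : ℝ) - 1) / 2 = 0 := by norm_num
  rw [e, Real.rpow_zero, norm_mul]
  calc _ ≤ (1 : ℝ) * 1 := by gcongr <;> [exact hz p; exact hw p hp j]
    _ = 1 := one_mul 1

theorem cpow_ss1 (p : ℕ) (hp : p.Prime) (ε : ℝ) :
    (p : ℂ) ^ (-ss 1 ε) = (((p : ℝ) ^ (-1 - ε) : ℝ) : ℂ) := by
  have hp0 : (0 : ℝ) < p := by exact_mod_cast hp.pos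
  rw [Complex.ofReal_cpow hp0.le]
  congr 1
  simp only [ss]
  push_cast
  ring

theorem norm_A {w : ℕ → Fin b → ℂ} (hw : ∀ p : ℕ, p.Prime → ∀ j, ‖w p j‖ ≤ 1) (p : ℕ) (hp : p.Prime) :
    ‖∑ j, w p j‖ ≤ b := by
  refine (norm_sum_le _ _).trans ((Finset.sum_le_sum fun j _ => hw p hp j).trans ?_)
  simp

/-- The part of the logarithm which belongs to the primes of `S`. -/
theorem part_le {w : ℕ → Fin b → ℂ} (hw : ∀ p : ℕ, p.Prime → ∀ j, ‖w p j‖ ≤ 1) {z : ℕ → ℂ}
    (hz : ∀ p, ‖z p‖ ≤ 1) (y : ℕ) (ε : ℝ) (hε : 0 ≤ ε) (S : Finset ℕ) (hS : ∀ p ∈ S, p.Prime ∧ y < p) :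
    ‖∑ p ∈ S, gl 1 (fun p j => z p * w p j) ε p‖ ≤
      ‖∑ p ∈ S, ((∑ j, w p j) * (((p : ℝ) ^ (-1 - ε) : ℝ) : ℂ)) * z p‖ + b * RT y := by
  have h1 : ‖∑ p ∈ S, gl 1 (fun p j => z p * w p j) ε p -
      ∑ p ∈ S, ((∑ j, w p j) * (((p : ℝ) ^ (-1 - ε) : ℝ) : ℂ)) * z p‖ ≤ b * RT y := by
    rw [← Finset.sum_sub_distrib]
    refine (norm_sum_le _ _).trans ?_
    have h2 : ∀ p ∈ S, ‖gl 1 (fun p j => z p * w p j) ε p -
        ((∑ j, w p j) * (((p : ℝ) ^ (-1 - ε) : ℝ) : ℂ)) * z p‖ ≤ b * (1 / (p : ℝ) ^ ((3 : ℝ) / 2)) := by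
      intro p hp
      have h3 := gl_near (n := 1) hε (bd1 hw hz) p (hS p hp).1
      rw [cpow_ss1 p (hS p hp).1, ← Finset.mul_sum] at h3
      have e : (∑ j, w p j) * (((p : ℝ) ^ (-1 - ε) : ℝ) : ℂ) * z p =
          z p * (∑ j, w p j) * (((p : ℝ) ^ (-1 - ε) : ℝ) : ℂ) := by ring
      rw [e]
      exact h3
    refine (Finset.sum_le_sum h2).trans ?_
    rw [← Finset.mul_sum]
    exact mul_le_mul_of_nonneg_left (sum_le_RT y S fun p hp => (hS p hp).2) (by positivity)
  have h2 := norm_add_le (∑ p ∈ S, gl 1 (fun p j => z p * w p j) ε p -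
      ∑ p ∈ S, ((∑ j, w p j) * (((p : ℝ) ^ (-1 - ε) : ℝ) : ℂ)) * z p)
    (∑ p ∈ S, ((∑ j, w p j) * (((p : ℝ) ^ (-1 - ε) : ℝ) : ℂ)) * z p)
  rw [sub_add_cancel] at h2
  linarith

theorem PR_mono {y Y : ℕ} (h : y ≤ Y) : PR y ⊆ PR Y := by
  intro p hp
  rw [mem_PR] at hp ⊢
  exact ⟨hp.1.trans h, hp.2⟩

theorem GY_sub (w : ℕ → Fin b → ℂ) (z : ℕ → ℂ) {y Y : ℕ} (h : y ≤ Y) (ε : ℝ) :
    GY w z Y ε - GY w z y ε = ∑ p ∈ PR Y \ PR y, gl 1 (fun p j => z p * w p j) ε p := by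
  unfold GY
  rw [← Finset.sum_sdiff (PR_mono h), add_sub_cancel_right]

theorem mem_diff {y Y p : ℕ} (h : p ∈ PR Y \ PR y) : p.Prime ∧ y < p := by
  rw [Finset.mem_sdiff, mem_PR, mem_PR] at h
  refine ⟨h.1.2, ?_⟩
  by_contra hcon
  exact h.2 ⟨by omega, h.1.2⟩

theorem GY_tendsto {w : ℕ → Fin b → ℂ} (hw : ∀ p : ℕ, p.Prime → ∀ j, ‖w p j‖ ≤ 1) {z : ℕ → ℂ}
    (hz : ∀ p, ‖z p‖ ≤ 1) (ε : ℝ) (hε : 0 < ε) :
    Tendsto (fun Y => GY w z Y ε) atTop (𝓝 (∑' p : Nat.Primes, gl 1 (fun p j => z p * w p j) ε p)) := by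
  have h1 : Summable fun p : Nat.Primes => gl 1 (fun p j => z p * w p j) ε p :=
    Summable.of_norm_bounded ((summable_primes hε).mul_left (2 * (b : ℝ)))
      fun p => gl_le hε.le (bd1 hw hz) p p.2
  have h2 : Tendsto (fun Y : ℕ => (PR Y).subtype Nat.Prime) atTop atTop := by
    apply Filter.tendsto_atTop_finset_of_monotone
    · intro y Y h p hp
      have hp' : (p : ℕ) ∈ PR y := (Finset.mem_subtype (p := Nat.Prime)).mp hp
      exact (Finset.mem_subtype (p := Nat.Prime)).mpr (PR_mono h hp')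
    · intro p
      refine ⟨(p : ℕ), (Finset.mem_subtype (p := Nat.Prime)).mpr ?_⟩
      rw [mem_PR]
      exact ⟨le_rfl, p.2⟩
  have h3 := h1.hasSum.comp h2
  refine h3.congr fun Y => ?_
  simp only [Function.comp]
  unfold GY
  exact Finset.sum_subtype_of_mem (fun p => gl 1 (fun p j => z p * w p j) ε p)
    fun p hp => (mem_PR.mp hp).2

/-- Bound of the logarithm over the primes up to `y`. -/
theorem GY_le {w : ℕ → Fin b → ℂ} (hw : ∀ p : ℕ, p.Prime → ∀ j, ‖w p j‖ ≤ 1) {z : ℕ → ℂ}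
    (hz : ∀ p, ‖z p‖ ≤ 1) (y : ℕ) (ε : ℝ) (hε : 0 ≤ ε) : ‖GY w z y ε‖ ≤ (y + 1) * (2 * b) := by
  unfold GY
  refine (norm_sum_le _ _).trans ?_
  have h1 : ∀ p ∈ PR y, ‖gl 1 (fun p j => z p * w p j) ε p‖ ≤ 2 * b := by
    intro p hp
    refine (gl_le hε (bd1 hw hz) p (mem_PR.mp hp).2).trans ?_
    have hp1 : (1 : ℝ) ≤ p := by exact_mod_cast (mem_PR.mp hp).2.one_lt.le
    have : (p : ℝ) ^ (-1 - ε) ≤ 1 := Real.rpow_le_one_of_one_le_of_nonpos hp1 (by linarith)
    calc _ ≤ 2 * (b : ℝ) * 1 := by gcongr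
      _ = _ := mul_one _
  refine (Finset.sum_le_card_nsmul _ _ _ h1).trans ?_
  rw [nsmul_eq_mul]
  have h2 : (PR y).card ≤ y + 1 := by
    unfold PR
    refine (Finset.card_filter_le _ _).trans ?_
    rw [Finset.card_range]
  have h3 : ((PR y).card : ℝ) ≤ y + 1 := by exact_mod_cast h2
  gcongr

/-- The factor of one prime depends continuously on the twist and on `ε`. -/
theorem gl_cont {w : ℕ → Fin b → ℂ} (hw : ∀ p : ℕ, p.Prime → ∀ j, ‖w p j‖ ≤ 1) {T : Type*}
    [TopologicalSpace T] {z : T → ℕ → ℂ} (hz : ∀ t p, ‖z t p‖ ≤ 1) (p : ℕ) (hp : p.Prime)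
    (hc : Continuous fun t => z t p) {ε : T → ℝ} (hε : ∀ t, 0 ≤ ε t) (hεc : Continuous ε) :
    Continuous fun t => gl 1 (fun p j => z t p * w p j) (ε t) p := by
  unfold gl
  refine continuous_finsetSum _ fun j _ => ?_
  have hp0 : (p : ℂ) ≠ 0 := by exact_mod_cast hp.ne_zero
  have h1 : Continuous fun t => z t p * w p j * (p : ℂ) ^ (-ss 1 (ε t)) := by
    refine (hc.mul continuous_const).mul ?_
    have h2 : Continuous fun t => -ss 1 (ε t) := by
      unfold ss
      exact (Complex.continuous_ofReal.comp (continuous_const.add hεc)).neg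
    exact h2.const_cpow (Or.inl hp0)
  have h3 : ∀ t, ‖z t p * w p j * (p : ℂ) ^ (-ss 1 (ε t))‖ ≤ 1 / 2 := by
    intro t
    exact (norm_z (n := 1) (α := fun p j => z t p * w p j) (bd1 hw (hz t)) p hp j).trans
      (rpow_le_half (hε t) p hp)
  have h4 : ∀ t, 0 < (1 - z t p * w p j * (p : ℂ) ^ (-ss 1 (ε t))).re := by
    intro t
    have := (Complex.re_le_norm _).trans (h3 t)
    rw [Complex.sub_re, Complex.one_re]
    linarith
  refine Continuous.clog (Continuous.inv₀ (continuous_const.sub h1) fun t h0 => ?_) fun t => ?_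
  · have := h4 t
    rw [h0] at this
    simp at this
  · left
    rw [Complex.inv_re]
    apply div_pos (h4 t)
    rw [Complex.normSq_pos]
    intro h0
    have := h4 t
    rw [h0] at this
    simp at this

theorem GY_cont {w : ℕ → Fin b → ℂ} (hw : ∀ p : ℕ, p.Prime → ∀ j, ‖w p j‖ ≤ 1) {T : Type*}
    [TopologicalSpace T] {z : T → ℕ → ℂ} (hz : ∀ t p, ‖z t p‖ ≤ 1) (y : ℕ)
    (hc : ∀ p ∈ PR y, Continuous fun t => z t p) {ε : T → ℝ} (hε : ∀ t, 0 ≤ ε t) (hεc : Continuous ε) :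
    Continuous fun t => GY w (z t) y (ε t) := by
  unfold GY
  exact continuous_finsetSum _ fun p hp => gl_cont hw hz p (mem_PR.mp hp).2 (hc p hp) hε hεc

end

/-! ### The infinite torus -/

instance : IsProbabilityMeasure (volume : Measure UnitAddCircle) :=
  ⟨by rw [show (volume : Measure UnitAddCircle) = (volume : Measure (AddCircle (1 : ℝ))) from rfl,
    AddCircle.measure_univ]; simp⟩

/-- The space of the independent angles. -/
abbrev Om : Type := ℕ → UnitAddCircle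

/-- The product measure. -/
noncomputable def mu : Measure Om := Measure.infinitePi fun _ : ℕ => (volume : Measure UnitAddCircle)

instance : IsProbabilityMeasure mu := by
  unfold mu
  infer_instance

/-- The independent random points of the unit circle. -/
noncomputable def ez (t : Om) (p : ℕ) : ℂ := fourier 1 (t p)

theorem norm_ez (t : Om) (p : ℕ) : ‖ez t p‖ = 1 := by
  unfold ez
  rw [fourier_apply]
  exact Circle.norm_coe _

theorem cont_ez (p : ℕ) : Continuous fun t : Om => ez t p :=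
  (fourier 1).continuous.comp (continuous_apply p)

theorem int_fourier : ∫ t : UnitAddCircle, (fourier 1 t : ℂ) = 0 := by
  have h1 := (orthonormal_iff_ite.mp (orthonormal_fourier (T := (1 : ℝ)))) 0 1
  rw [if_neg (by norm_num)] at h1
  have h2 : (inner ℂ (fourierLp (T := (1 : ℝ)) 2 0) (fourierLp (T := (1 : ℝ)) 2 1) : ℂ) =
      ∫ t : AddCircle (1 : ℝ), (fourier 1 t : ℂ) ∂AddCircle.haarAddCircle := by
    unfold fourierLp
    rw [ContinuousMap.inner_toLp]
    simp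
  rw [h2] at h1
  have h3 : (volume : Measure (AddCircle (1 : ℝ))) = AddCircle.haarAddCircle := by
    rw [AddCircle.volume_eq_smul_haarAddCircle]
    simp
  have h4 : (volume : Measure UnitAddCircle) = AddCircle.haarAddCircle := h3
  rw [h4]
  exact h1

theorem int_pair (p r : ℕ) : ∫ t, ez t p * star (ez t r) ∂mu = if p = r then 1 else 0 := by
  by_cases h : p = r
  · subst h
    rw [if_pos rfl]
    have h1 : ∀ t, ez t p * star (ez t p) = 1 := by
      intro t
      have := Complex.mul_conj' (ez t p)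
      rw [norm_ez] at this
      simpa using this
    simp only [h1]
    simp
  · rw [if_neg h]
    have h1 := Measure.infinitePi_map_eval_prod (P := fun _ : ℕ => (volume : Measure UnitAddCircle)) h
    have h2 : ∫ t, ez t p * star (ez t r) ∂mu =
        ∫ s : UnitAddCircle × UnitAddCircle, (fourier 1 s.1 : ℂ) * star (fourier 1 s.2 : ℂ)
          ∂((volume : Measure UnitAddCircle).prod volume) := by
      rw [← h1, integral_map]
      · rfl
      · exact ((measurable_pi_apply p).prodMk (measurable_pi_apply r)).aemeasurable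
      · apply Continuous.aestronglyMeasurable
        fun_prop
    rw [h2, integral_prod_mul (fun s : UnitAddCircle => (fourier 1 s : ℂ))
      (fun s : UnitAddCircle => star (fourier 1 s : ℂ)), int_fourier, zero_mul]

theorem torus_sq (S : Finset ℕ) (c : ℕ → ℂ) :
    ∫ t, ‖∑ p ∈ S, c p * ez t p‖ ^ 2 ∂mu = ∑ p ∈ S, ‖c p‖ ^ 2 := by
  have hcont : ∀ p r : ℕ, Continuous fun t : Om => c p * star (c r) * (ez t p * star (ez t r)) := by
    intro p r
    exact continuous_const.mul ((cont_ez p).mul (cont_ez r).star)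
  have hint : ∀ p r : ℕ, Integrable (fun t : Om => c p * star (c r) * (ez t p * star (ez t r))) mu := by
    intro p r
    refine Integrable.mono' (integrable_const (‖c p‖ * ‖c r‖)) (hcont p r).aestronglyMeasurable
      (Eventually.of_forall fun t => ?_)
    rw [norm_mul, norm_mul, norm_mul, norm_star, norm_star, norm_ez, norm_ez, one_mul, mul_one]
  have h1 : ((∫ t, ‖∑ p ∈ S, c p * ez t p‖ ^ 2 ∂mu : ℝ) : ℂ) = ((∑ p ∈ S, ‖c p‖ ^ 2 : ℝ) : ℂ) := by
    rw [← integral_complex_ofReal]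
    have h2 : ∀ t, ((‖∑ p ∈ S, c p * ez t p‖ ^ 2 : ℝ) : ℂ) =
        ∑ p ∈ S, ∑ r ∈ S, c p * star (c r) * (ez t p * star (ez t r)) := by
      intro t
      push_cast
      rw [← Complex.mul_conj', map_sum, Finset.sum_mul_sum]
      refine Finset.sum_congr rfl fun p _ => Finset.sum_congr rfl fun r _ => ?_
      rw [map_mul]
      simp only [RCLike.star_def]
      ring
    simp only [h2]
    rw [integral_finsetSum _ fun p _ => integrable_finsetSum _ fun r _ => hint p r]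
    push_cast
    refine Finset.sum_congr rfl fun p hp => ?_
    rw [integral_finsetSum _ fun r _ => hint p r]
    simp only [integral_const_mul, int_pair]
    rw [Finset.sum_eq_single p]
    · rw [if_pos rfl, mul_one]
      exact Complex.mul_conj' (c p)
    · intro r _ hr
      rw [if_neg (fun h => hr h.symm), mul_zero]
    · intro h
      exact absurd hp h
  exact_mod_cast h1

end Pool.Agent.L0h50.DL
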