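import Mathlib
import Pool.Agent.L0h50.DL.Model

/-!
# The law of the random Euler product
-/

set_option autoImplicit false

namespace Pool.Agent.L0h50.DL

open Finset Pool.Agent.Y722.HS MeasureTheory Filter Topology

section
variable {b : ℕ} {w : ℕ → Fin b → ℂ}

theorem mean_sq {Ω : Type*} [MeasurableSpace Ω] {P : Measure Ω} [IsProbabilityMeasure P] {g : Ω → ℝ}
    (h1 : Integrable g P) (h2 : Integrable (fun x => g x ^ 2) P) : (∫ x, g x ∂P) ^ 2 ≤ ∫ x, g x ^ 2 ∂P := by
  set m := ∫ x, g x ∂P with hm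
  have h3 : 0 ≤ ∫ x, (g x - m) ^ 2 ∂P := integral_nonneg fun _ => by positivity
  have h4 : ∫ x, (g x - m) ^ 2 ∂P = ∫ x, g x ^ 2 ∂P - m ^ 2 := by
    have h5 : ∀ x, (g x - m) ^ 2 = (g x ^ 2 - 2 * m * g x) + m ^ 2 := fun x => by ring
    have h6 : Integrable (fun x => g x ^ 2 - 2 * m * g x) P := h2.sub (h1.const_mul (2 * m))
    have h7 : ∫ x, (g x ^ 2 - 2 * m * g x) ∂P = ∫ x, g x ^ 2 ∂P - 2 * m * m := by
      rw [integral_sub h2 (h1.const_mul (2 * m)), integral_const_mul, ← hm]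
    simp only [h5]
    rw [integral_add h6 (integrable_const (m ^ 2)), h7]
    simp
    ring
  linarith

theorem f_cont (hw : ∀ p : ℕ, p.Prime → ∀ j, ‖w p j‖ ≤ 1) (y : ℕ) :
    Continuous fun t : Om => GY w (ez t) y 0 :=
  GY_cont hw (fun t p => (norm_ez t p).le) y (fun p _ => cont_ez p) (fun _ => le_rfl) continuous_const

theorem f_int (hw : ∀ p : ℕ, p.Prime → ∀ j, ‖w p j‖ ≤ 1) (y : ℕ) :
    Integrable (fun t : Om => GY w (ez t) y 0) mu :=
  Integrable.mono' (integrable_const (((y : ℝ) + 1) * (2 * b))) (f_cont hw y).aestronglyMeasurable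
    (Eventually.of_forall fun t => GY_le hw (fun p => (norm_ez t p).le) y 0 le_rfl)

/-- The bound of the tail in `L¹`. -/
noncomputable def ER (b y : ℕ) : ℝ := Real.sqrt (2 * ((b : ℝ) ^ 2 * RT y) + 2 * ((b : ℝ) ^ 2 * RT y ^ 2))

theorem ER_nonneg (b y : ℕ) : 0 ≤ ER b y := Real.sqrt_nonneg _

theorem ER_tendsto (b : ℕ) : Tendsto (ER b) atTop (𝓝 0) := by
  have h1 : Tendsto (fun y => 2 * ((b : ℝ) ^ 2 * RT y) + 2 * ((b : ℝ) ^ 2 * RT y ^ 2)) atTop
      (𝓝 (2 * ((b : ℝ) ^ 2 * 0) + 2 * ((b : ℝ) ^ 2 * 0 ^ 2))) :=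
    ((RT_tendsto.const_mul _).const_mul _).add (((RT_tendsto.pow 2).const_mul _).const_mul _)
  have h2 := h1.sqrt
  have e : Real.sqrt (2 * ((b : ℝ) ^ 2 * 0) + 2 * ((b : ℝ) ^ 2 * 0 ^ 2)) = 0 := by simp
  rw [e] at h2
  exact h2

theorem tail_sq (hw : ∀ p : ℕ, p.Prime → ∀ j, ‖w p j‖ ≤ 1) {y Y : ℕ} (h : y ≤ Y) :
    ∫ t, ‖GY w (ez t) Y 0 - GY w (ez t) y 0‖ ^ 2 ∂mu ≤
      2 * ((b : ℝ) ^ 2 * RT y) + 2 * ((b : ℝ) ^ 2 * RT y ^ 2) := by
  set c : ℕ → ℂ := fun p => (∑ j, w p j) * (((p : ℝ) ^ (-1 - (0 : ℝ)) : ℝ) : ℂ) with hc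
  have hcontS : Continuous fun t : Om => ‖∑ p ∈ PR Y \ PR y, c p * ez t p‖ ^ 2 :=
    (continuous_finsetSum _ fun p _ => continuous_const.mul (cont_ez p)).norm.pow 2
  have hR := RT_nonneg y
  have h1 : ∀ t : Om, ‖GY w (ez t) Y 0 - GY w (ez t) y 0‖ ^ 2 ≤
      2 * ‖∑ p ∈ PR Y \ PR y, c p * ez t p‖ ^ 2 + 2 * ((b : ℝ) ^ 2 * RT y ^ 2) := by
    intro t
    rw [GY_sub w (ez t) h]
    have h2 := part_le hw (fun p => (norm_ez t p).le) y 0 le_rfl (PR Y \ PR y) fun p hp => mem_diff hp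
    have h3 : ‖∑ p ∈ PR Y \ PR y, gl 1 (fun p j => ez t p * w p j) 0 p‖ ^ 2 ≤
        (‖∑ p ∈ PR Y \ PR y, c p * ez t p‖ + b * RT y) ^ 2 := by
      apply pow_le_pow_left₀ (norm_nonneg _) h2
    refine h3.trans ?_
    have h4 : ∀ x y : ℝ, (x + y) ^ 2 ≤ 2 * x ^ 2 + 2 * y ^ 2 := fun x y => by nlinarith [sq_nonneg (x - y)]
    refine (h4 _ _).trans (le_of_eq ?_)
    rw [mul_pow]
  have hbd : ∀ t : Om, ‖∑ p ∈ PR Y \ PR y, c p * ez t p‖ ^ 2 ≤ (∑ p ∈ PR Y \ PR y, ‖c p‖) ^ 2 := by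
    intro t
    apply pow_le_pow_left₀ (norm_nonneg _)
    refine (norm_sum_le _ _).trans (Finset.sum_le_sum fun p _ => ?_)
    rw [norm_mul, norm_ez, mul_one]
  have hint : Integrable (fun t : Om => ‖∑ p ∈ PR Y \ PR y, c p * ez t p‖ ^ 2) mu :=
    Integrable.mono' (integrable_const ((∑ p ∈ PR Y \ PR y, ‖c p‖) ^ 2)) hcontS.aestronglyMeasurable
      (Eventually.of_forall fun t => by
        rw [Real.norm_of_nonneg (by positivity)]
        exact hbd t)
  calc _ ≤ ∫ t, (2 * ‖∑ p ∈ PR Y \ PR y, c p * ez t p‖ ^ 2 + 2 * ((b : ℝ) ^ 2 * RT y ^ 2)) ∂mu := by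
        apply integral_mono_of_nonneg (Eventually.of_forall fun t => by positivity)
          ((hint.const_mul 2).add (integrable_const _)) (Eventually.of_forall h1)
    _ = 2 * (∑ p ∈ PR Y \ PR y, ‖c p‖ ^ 2) + 2 * ((b : ℝ) ^ 2 * RT y ^ 2) := by
        rw [integral_add (hint.const_mul 2) (integrable_const _), integral_const_mul, torus_sq]
        simp
    _ ≤ _ := by
        have h5 : ∑ p ∈ PR Y \ PR y, ‖c p‖ ^ 2 ≤ (b : ℝ) ^ 2 * RT y := by
          have h6 : ∀ p ∈ PR Y \ PR y, ‖c p‖ ^ 2 ≤ (b : ℝ) ^ 2 * (1 / (p : ℝ) ^ ((3 : ℝ) / 2)) := by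
            intro p hp
            have hpp := (mem_diff hp).1
            have hp1 : (1 : ℝ) ≤ p := by exact_mod_cast hpp.one_lt.le
            have h7 : ‖c p‖ ≤ b * (p : ℝ) ^ (-1 : ℝ) := by
              rw [hc]
              simp only
              rw [norm_mul, Complex.norm_real, Real.norm_of_nonneg (by positivity), sub_zero]
              gcongr
              exact norm_A hw p hpp
            calc _ ≤ (b * (p : ℝ) ^ (-1 : ℝ)) ^ 2 := pow_le_pow_left₀ (norm_nonneg _) h7 2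
              _ = (b : ℝ) ^ 2 * ((p : ℝ) ^ (-1 : ℝ) * (p : ℝ) ^ (-1 : ℝ)) := by ring
              _ ≤ _ := by
                apply mul_le_mul_of_nonneg_left _ (by positivity)
                rw [← Real.rpow_add (by linarith), one_div, ← Real.rpow_neg (by linarith)]
                exact Real.rpow_le_rpow_of_exponent_le hp1 (by norm_num)
          refine (Finset.sum_le_sum h6).trans ?_
          rw [← Finset.mul_sum]
          exact mul_le_mul_of_nonneg_left (sum_le_RT y _ fun p hp => (mem_diff hp).2) (by positivity)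
        linarith

theorem tail_l1 (hw : ∀ p : ℕ, p.Prime → ∀ j, ‖w p j‖ ≤ 1) {y Y : ℕ} (h : y ≤ Y) :
    ∫ t, ‖GY w (ez t) Y 0 - GY w (ez t) y 0‖ ∂mu ≤ ER b y := by
  have hc : Continuous fun t : Om => ‖GY w (ez t) Y 0 - GY w (ez t) y 0‖ :=
    ((f_cont hw Y).sub (f_cont hw y)).norm
  have hb : ∀ t : Om, ‖GY w (ez t) Y 0 - GY w (ez t) y 0‖ ≤ (Y + 1) * (2 * b) + (y + 1) * (2 * b) := by
    intro t
    refine (norm_sub_le _ _).trans (add_le_add ?_ ?_)
    · exact GY_le hw (fun p => (norm_ez t p).le) Y 0 le_rfl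
    · exact GY_le hw (fun p => (norm_ez t p).le) y 0 le_rfl
  have h1 : Integrable (fun t : Om => ‖GY w (ez t) Y 0 - GY w (ez t) y 0‖) mu :=
    Integrable.mono' (integrable_const _) hc.aestronglyMeasurable
      (Eventually.of_forall fun t => by rw [norm_norm]; exact hb t)
  have h2 : Integrable (fun t : Om => ‖GY w (ez t) Y 0 - GY w (ez t) y 0‖ ^ 2) mu :=
    Integrable.mono' (integrable_const ((((Y : ℝ) + 1) * (2 * b) + (y + 1) * (2 * b)) ^ 2))
      (hc.pow 2).aestronglyMeasurable (Eventually.of_forall fun t => by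
        rw [Real.norm_of_nonneg (by positivity)]
        exact pow_le_pow_left₀ (norm_nonneg _) (hb t) 2)
  exact Real.le_sqrt_of_sq_le ((mean_sq h1 h2).trans (tail_sq hw h))

/-- **The law of the random Euler product.** -/
theorem exists_limit (hw : ∀ p : ℕ, p.Prime → ∀ j, ‖w p j‖ ≤ 1) : ∃ F : Om → ℂ, Integrable F mu ∧
    ∀ y, ∫ t, ‖GY w (ez t) y 0 - F t‖ ∂mu ≤ ER b y := by
  set G : ℕ → (Om →₁[mu] ℂ) := fun y => (f_int hw y).toL1 with hG
  have hsub : ∀ y Y : ℕ, ‖G Y - G y‖ = ∫ t, ‖GY w (ez t) Y 0 - GY w (ez t) y 0‖ ∂mu := by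
    intro y Y
    rw [hG]
    simp only
    rw [← Integrable.toL1_sub, L1.norm_of_fun_eq_integral_norm]
    rfl
  have hcau : CauchySeq G := by
    apply cauchySeq_of_le_tendsto_0' (ER b) _ (ER_tendsto b)
    intro y Y h
    rw [dist_comm, dist_eq_norm, hsub]
    exact tail_l1 hw h
  obtain ⟨F, hF⟩ := cauchySeq_tendsto_of_complete hcau
  refine ⟨F, L1.integrable_coeFn F, fun y => ?_⟩
  have h1 : ∫ t, ‖GY w (ez t) y 0 - F t‖ ∂mu = ‖G y - F‖ := by
    rw [L1.norm_eq_integral_norm]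
    apply integral_congr_ae
    filter_upwards [Lp.coeFn_sub (G y) F, (f_int hw y).coeFn_toL1] with t ht1 ht2
    rw [ht1, Pi.sub_apply]
    rw [← ht2]
  rw [h1]
  have h2 : Tendsto (fun Y => ‖G y - G Y‖) atTop (𝓝 ‖G y - F‖) := (hF.const_sub (G y)).norm
  refine le_of_tendsto h2 ?_
  filter_upwards [eventually_ge_atTop y] with Y hY
  rw [← norm_neg, neg_sub, hsub]
  exact tail_l1 hw hY

/-! ### Weyl's criterion -/

open UnitAddTorus in
theorem int_mFourier {d : Type} [Fintype d] (n : d → ℤ) (hn : n ≠ 0) :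
    ∫ t : UnitAddTorus d, mFourier n t = 0 := by
  rw [mFourier, ContinuousMap.coe_mk]
  have h1 := MeasureTheory.integral_fintype_prod_volume_eq_prod (𝕜 := ℂ)
    (f := fun (i : d) (t : UnitAddCircle) => (fourier (n i) t : ℂ))
  refine h1.trans ?_
  obtain ⟨i, hi⟩ := Function.ne_iff.mp hn
  apply Finset.prod_eq_zero (Finset.mem_univ i)
  have h2 := (orthonormal_iff_ite.mp (orthonormal_fourier (T := (1 : ℝ)))) 0 (n i)
  rw [if_neg (fun h => hi h.symm)] at h2
  have h3 : (inner ℂ (fourierLp (T := (1 : ℝ)) 2 0) (fourierLp (T := (1 : ℝ)) 2 (n i)) : ℂ) =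
      ∫ t : AddCircle (1 : ℝ), (fourier (n i) t : ℂ) ∂AddCircle.haarAddCircle := by
    unfold fourierLp
    rw [ContinuousMap.inner_toLp]
    simp
  rw [h3] at h2
  have h4 : (volume : Measure (AddCircle (1 : ℝ))) = AddCircle.haarAddCircle := by
    rw [AddCircle.volume_eq_smul_haarAddCircle]
    simp
  have h5 : (volume : Measure UnitAddCircle) = AddCircle.haarAddCircle := h4
  rw [h5]
  exact h2

open UnitAddTorus in
/-- Weyl's criterion on the torus. -/
theorem weyl {d : Type} [Fintype d] {ι : Type*} {l : Filter ι} (E : ι → C(UnitAddTorus d, ℂ) →ₗ[ℂ] ℂ)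
    (hE : ∀ i f, ‖E i f‖ ≤ ‖f‖) (h0 : ∀ i, E i 1 = 1)
    (h : ∀ n : d → ℤ, n ≠ 0 → Tendsto (fun i => E i (mFourier n)) l (𝓝 0)) (f : C(UnitAddTorus d, ℂ)) :
    Tendsto (fun i => E i f) l (𝓝 (∫ t, f t)) := by
  have hp : IsProbabilityMeasure (volume : Measure (UnitAddTorus d)) := by
    rw [show (volume : Measure (UnitAddTorus d)) = Measure.pi (fun _ => volume) from rfl]
    infer_instance
  have hcomp : ∀ g : C(UnitAddTorus d, ℂ), Integrable (fun t => g t) (volume : Measure (UnitAddTorus d)) := by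
    intro g
    exact Integrable.mono' (integrable_const ‖g‖) g.continuous.aestronglyMeasurable
      (Eventually.of_forall fun t => g.norm_coe_le_norm t)
  -- on the span
  have hspan : ∀ g ∈ Submodule.span ℂ (Set.range (mFourier (d := d))),
      Tendsto (fun i => E i g) l (𝓝 (∫ t, g t)) := by
    intro g hg
    induction hg using Submodule.span_induction with
    | mem g hg =>
      obtain ⟨n, rfl⟩ := hg
      by_cases hn : n = 0
      · subst hn
        rw [mFourier_zero]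
        simp only [h0]
        have : ∫ t : UnitAddTorus d, (1 : C(UnitAddTorus d, ℂ)) t = 1 := by simp
        rw [this]
        exact tendsto_const_nhds
      · rw [int_mFourier n hn]
        exact h n hn
    | zero =>
      simp only [map_zero, ContinuousMap.coe_zero, Pi.zero_apply, integral_zero]
      exact tendsto_const_nhds
    | add g g' _ _ hg hg' =>
      have h1 : ∫ t : UnitAddTorus d, (g + g') t = (∫ t, g t) + ∫ t, g' t :=
        integral_add (hcomp g) (hcomp g')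
      rw [h1]
      simp only [map_add]
      exact hg.add hg'
    | smul c g _ hg =>
      have h1 : ∫ t : UnitAddTorus d, (c • g) t = c • ∫ t, g t := integral_smul c _
      rw [h1]
      simp only [map_smul]
      exact hg.const_smul c
  rw [Metric.tendsto_nhds]
  intro η hη
  have hf : f ∈ closure ((Submodule.span ℂ (Set.range (mFourier (d := d))) : Set C(UnitAddTorus d, ℂ))) := by
    have h1 := span_mFourier_closure_eq_top (d := d)
    have h2 : f ∈ (Submodule.span ℂ (Set.range (mFourier (d := d)))).topologicalClosure := by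
      rw [h1]
      exact Submodule.mem_top
    exact h2
  obtain ⟨g, hg, hfg⟩ := Metric.mem_closure_iff.mp hf (η / 3) (by positivity)
  filter_upwards [(Metric.tendsto_nhds.mp (hspan g hg)) (η / 3) (by positivity)] with i hi
  have e1 : dist (E i f) (E i g) ≤ η / 3 := by
    rw [dist_eq_norm, ← map_sub]
    refine (hE i _).trans ?_
    rw [← dist_eq_norm]
    exact hfg.le
  have e2 : dist (∫ t, g t) (∫ t, f t) ≤ η / 3 := by
    rw [dist_eq_norm, ← integral_sub (hcomp g) (hcomp f)]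
    refine (norm_integral_le_of_norm_le_const (C := η / 3) (Eventually.of_forall fun t => ?_)).trans ?_
    · have := (g - f).norm_coe_le_norm t
      refine this.trans ?_
      rw [← dist_eq_norm, dist_comm]
      exact hfg.le
    · simp
  calc dist (E i f) (∫ t, f t) ≤ dist (E i f) (E i g) + dist (E i g) (∫ t, g t) +
        dist (∫ t, g t) (∫ t, f t) := dist_triangle4 _ _ _ _
    _ < η := by linarith

end

end Pool.Agent.L0h50.DL
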