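import Mathlib
import Pool.Agent.L0h50.DL.Limit

/-!
# Convergence in law to the random Euler product
-/

set_option autoImplicit false

namespace Pool.Agent.L0h50.DL

open Finset Pool.Agent.Y722.HS MeasureTheory Filter Topology

section
variable {b : ℕ} {w : ℕ → Fin b → ℂ}

theorem GY_congr (w : ℕ → Fin b → ℂ) {z z' : ℕ → ℂ} (y : ℕ) (ε : ℝ) (h : ∀ p ∈ PR y, z p = z' p) :
    GY w z y ε = GY w z' y ε := by
  unfold GY gl
  refine Finset.sum_congr rfl fun p hp => Finset.sum_congr rfl fun j _ => ?_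
  beta_reduce
  rw [h p hp]

/-- The point with the angles `s` at the primes up to `y`. -/
noncomputable def ext (y : ℕ) (s : UnitAddTorus (PR y)) (p : ℕ) : ℂ :=
  if h : p ∈ PR y then fourier 1 (s ⟨p, h⟩) else 0

theorem norm_ext (y : ℕ) (s : UnitAddTorus (PR y)) (p : ℕ) : ‖ext y s p‖ ≤ 1 := by
  unfold ext
  split_ifs
  · rw [fourier_apply]
    exact (Circle.norm_coe _).le
  · simp

theorem cont_ext (y : ℕ) (p : ℕ) : Continuous fun s : UnitAddTorus (PR y) => ext y s p := by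
  unfold ext
  split_ifs
  · exact (fourier 1).continuous.comp (continuous_apply _)
  · exact continuous_const

theorem g_cont (hw : ∀ p : ℕ, p.Prime → ∀ j, ‖w p j‖ ≤ 1) (y : ℕ) :
    Continuous fun s : UnitAddTorus (PR y) => GY w (ext y s) y 0 :=
  GY_cont hw (norm_ext y) y (fun p _ => cont_ext y p) (fun _ => le_rfl) continuous_const

theorem lip_int {Ω : Type*} [MeasurableSpace Ω] {P : Measure Ω} [IsProbabilityMeasure P] {f g : Ω → ℂ}
    (hf : AEStronglyMeasurable f P) (hg : AEStronglyMeasurable g P) (hfg : Integrable (fun x => f x - g x) P)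
    {Φ : ℂ → ℝ} {L : NNReal} (hΦ : LipschitzWith L Φ) {M : ℝ} (hM : ∀ z, |Φ z| ≤ M) :
    |∫ x, Φ (f x) ∂P - ∫ x, Φ (g x) ∂P| ≤ L * ∫ x, ‖f x - g x‖ ∂P := by
  have h1 : ∀ {f : Ω → ℂ}, AEStronglyMeasurable f P → Integrable (fun x => Φ (f x)) P := by
    intro f hf
    exact Integrable.mono' (integrable_const M) (hΦ.continuous.comp_aestronglyMeasurable hf)
      (Eventually.of_forall fun x => hM _)
  rw [← integral_sub (h1 hf) (h1 hg), ← Real.norm_eq_abs]
  refine (norm_integral_le_integral_norm _).trans ?_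
  rw [← integral_const_mul]
  apply integral_mono_of_nonneg (Eventually.of_forall fun x => norm_nonneg _)
    (hfg.norm.const_mul _) (Eventually.of_forall fun x => ?_)
  have := hΦ.dist_le_mul (f x) (g x)
  rw [dist_eq_norm, dist_eq_norm] at this
  exact this

/-- **The law, tested on Lipschitz functions.** -/
theorem family_lip (hw : ∀ p : ℕ, p.Prime → ∀ j, ‖w p j‖ ≤ 1) {F : Om → ℂ} (hF : Integrable F mu)
    (hF' : ∀ y, ∫ t, ‖GY w (ez t) y 0 - F t‖ ∂mu ≤ ER b y) {ι : Type*} {l : Filter ι} {Ω : ι → Type*}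
    [∀ i, MeasurableSpace (Ω i)] (P : ∀ i, Measure (Ω i)) [∀ i, IsProbabilityMeasure (P i)]
    (Z : ∀ i, Ω i → ℕ → UnitAddCircle) (hZ : ∀ i p, Measurable fun x => Z i x p) (X : ∀ i, Ω i → ℂ)
    (hX : ∀ i, Integrable (X i) (P i))
    (hweyl : ∀ (y : ℕ) (n : PR y → ℤ), n ≠ 0 →
      Tendsto (fun i => ∫ x, ∏ p : PR y, (fourier (n p) (Z i x p) : ℂ) ∂(P i)) l (𝓝 0))
    (htail : ∀ η : ℝ, 0 < η → ∃ y₀ : ℕ, ∀ y, y₀ ≤ y → ∀ᶠ i in l,
      ∫ x, ‖X i x - GY w (fun p => fourier 1 (Z i x p)) y 0‖ ∂(P i) ≤ η)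
    {Φ : ℂ → ℝ} {L : NNReal} (hΦ : LipschitzWith L Φ) {M : ℝ} (hM : ∀ z, |Φ z| ≤ M) :
    Tendsto (fun i => ∫ x, Φ (X i x) ∂(P i)) l (𝓝 (∫ t, Φ (F t) ∂mu)) := by
  have hfin : ∀ y : ℕ, Tendsto (fun i => ∫ x, Φ (GY w (fun p => fourier 1 (Z i x p)) y 0) ∂(P i)) l
      (𝓝 (∫ t, Φ (GY w (ez t) y 0) ∂mu)) := by
    intro y
    set f : C(UnitAddTorus (PR y), ℂ) :=
      ⟨fun s => ((Φ (GY w (ext y s) y 0) : ℝ) : ℂ),
        Complex.continuous_ofReal.comp (hΦ.continuous.comp (g_cont hw y))⟩ with hf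
    have hmeas : ∀ i, Measurable fun x : Ω i => (fun p : PR y => Z i x p : UnitAddTorus (PR y)) := by
      intro i
      exact measurable_pi_lambda _ fun p => hZ i p
    have hgi : ∀ (i : ι) (g : C(UnitAddTorus (PR y), ℂ)),
        Integrable (fun x => g (fun p : PR y => Z i x p)) (P i) := by
      intro i g
      refine Integrable.mono' (integrable_const ‖g‖) ?_ (Eventually.of_forall fun t =>
        g.norm_coe_le_norm _)
      exact (g.continuous.measurable.comp (hmeas i)).aestronglyMeasurable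
    set E : ι → C(UnitAddTorus (PR y), ℂ) →ₗ[ℂ] ℂ := fun i =>
      { toFun := fun g => ∫ x, g (fun p : PR y => Z i x p) ∂(P i)
        map_add' := fun g g' => integral_add (hgi i g) (hgi i g')
        map_smul' := fun c g => integral_smul c _ } with hE
    have h1 := weyl (l := l) E (fun i g => by
        refine (norm_integral_le_of_norm_le_const (C := ‖g‖)
          (Eventually.of_forall fun x => g.norm_coe_le_norm _)).trans ?_
        simp) (fun i => by
        change ∫ x, (1 : ℂ) ∂(P i) = 1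
        simp) (fun n hn => hweyl y n hn) f
    have h2 : ∀ i, E i f = ((∫ x, Φ (GY w (fun p => fourier 1 (Z i x p)) y 0) ∂(P i) : ℝ) : ℂ) := by
      intro i
      rw [← integral_complex_ofReal]
      change ∫ x, f (fun p : PR y => Z i x p) ∂(P i) = _
      congr 1
      funext x
      rw [hf]
      simp only [ContinuousMap.coe_mk]
      congr 2
      apply GY_congr
      intro p hp
      unfold ext
      rw [dif_pos hp]
    have h3 : ∫ s, f s = ((∫ t, Φ (GY w (ez t) y 0) ∂mu : ℝ) : ℂ) := by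
      rw [← integral_complex_ofReal]
      have h4 : ∀ t : Om, ((Φ (GY w (ez t) y 0) : ℝ) : ℂ) = f ((PR y).restrict t) := by
        intro t
        rw [hf]
        simp only [ContinuousMap.coe_mk]
        congr 2
        apply GY_congr
        intro p hp
        unfold ext ez
        rw [dif_pos hp]
        rfl
      simp only [h4]
      rw [mu]
      exact (integral_restrict_infinitePi (X := fun _ : ℕ => UnitAddCircle)
        (μ := fun _ : ℕ => (volume : Measure UnitAddCircle)) (s := PR y)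
        (f := fun s => f s) f.continuous.aestronglyMeasurable).symm
    rw [h3] at h1
    simp only [h2] at h1
    have h5 := (Complex.continuous_re.tendsto _).comp h1
    rw [Complex.ofReal_re] at h5
    exact h5
  rw [Metric.tendsto_nhds]
  intro η hη
  have hL : (0 : ℝ) ≤ L := L.2
  obtain ⟨y₀, hy₀⟩ := htail (η / (3 * (L + 1))) (by positivity)
  have h1 : ∀ᶠ y in atTop, ER b y < η / (3 * (L + 1)) :=
    (ER_tendsto b).eventually (gt_mem_nhds (by positivity))
  obtain ⟨y, hy1, hy2⟩ := (h1.and (eventually_ge_atTop y₀)).exists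
  filter_upwards [hy₀ y hy2, (Metric.tendsto_nhds.mp (hfin y)) (η / 3) (by positivity)] with i hi1 hi2
  have hgm : AEStronglyMeasurable (fun x => GY w (fun p => (fourier 1 (Z i x p) : ℂ)) y 0) (P i) := by
    have h2 : (fun x => GY w (fun p => (fourier 1 (Z i x p) : ℂ)) y 0) =
        fun x => GY w (ext y (fun p : PR y => Z i x p)) y 0 := by
      funext x
      apply GY_congr
      intro p hp
      unfold ext
      rw [dif_pos hp]
    rw [h2]
    exact ((g_cont hw y).measurable.comp (measurable_pi_lambda _ fun p => hZ i p)).aestronglyMeasurable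
  have hgi : Integrable (fun x => GY w (fun p => (fourier 1 (Z i x p) : ℂ)) y 0) (P i) :=
    Integrable.mono' (integrable_const (((y : ℝ) + 1) * (2 * b))) hgm
      (Eventually.of_forall fun t => GY_le hw (fun p => by
        rw [fourier_apply]
        exact (Circle.norm_coe _).le) y 0 le_rfl)
  have e1 := lip_int (hX i).aestronglyMeasurable hgm ((hX i).sub hgi) hΦ hM
  have e2 := lip_int (P := mu) (f_int hw y).aestronglyMeasurable hF.aestronglyMeasurable
    ((f_int hw y).sub hF) hΦ hM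
  have e3 : (L : ℝ) * (η / (3 * (L + 1))) ≤ η / 3 := by
    rw [mul_div_assoc', div_le_div_iff₀ (by positivity) (by norm_num)]
    nlinarith
  have e4 : (L : ℝ) * (η / (3 * (L + 1))) < η / 3 := by
    rw [mul_div_assoc', div_lt_div_iff₀ (by positivity) (by norm_num)]
    nlinarith
  rw [Real.dist_eq] at hi2 ⊢
  have e5 : |∫ x, Φ (X i x) ∂(P i) - ∫ x, Φ (GY w (fun p => fourier 1 (Z i x p)) y 0) ∂(P i)| ≤ η / 3 :=
    (e1.trans (mul_le_mul_of_nonneg_left hi1 hL)).trans e3
  have e6 : |∫ t, Φ (GY w (ez t) y 0) ∂mu - ∫ t, Φ (F t) ∂mu| < η / 3 :=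
    (e2.trans (mul_le_mul_of_nonneg_left ((hF' y).trans hy1.le) hL)).trans_lt e4
  have e7 := abs_sub_le (∫ x, Φ (X i x) ∂(P i))
    (∫ x, Φ (GY w (fun p => fourier 1 (Z i x p)) y 0) ∂(P i)) (∫ t, Φ (F t) ∂mu)
  have e8 := abs_sub_le (∫ x, Φ (GY w (fun p => fourier 1 (Z i x p)) y 0) ∂(P i))
    (∫ t, Φ (GY w (ez t) y 0) ∂mu) (∫ t, Φ (F t) ∂mu)
  linarith

/-- From Lipschitz functions to bounded continuous functions. -/
theorem to_cont {ι : Type*} {l : Filter ι} [l.IsCountablyGenerated] {Ω : ι → Type*}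
    [∀ i, MeasurableSpace (Ω i)] (P : ∀ i, Measure (Ω i)) [∀ i, IsProbabilityMeasure (P i)]
    (X : ∀ i, Ω i → ℂ) (hX : ∀ i, AEMeasurable (X i) (P i)) {Ω' : Type*} [MeasurableSpace Ω']
    (P' : Measure Ω') [IsProbabilityMeasure P'] (F : Ω' → ℂ) (hF : AEMeasurable F P')
    (h : ∀ (Φ : ℂ → ℝ) (L : NNReal), LipschitzWith L Φ → ∀ M : ℝ, (∀ z, |Φ z| ≤ M) →
      Tendsto (fun i => ∫ x, Φ (X i x) ∂(P i)) l (𝓝 (∫ t, Φ (F t) ∂P')))
    (Ψ : ℂ → ℝ) (hΨ : Continuous Ψ) (M : ℝ) (hM : ∀ z, |Ψ z| ≤ M) :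
    Tendsto (fun i => ∫ x, Ψ (X i x) ∂(P i)) l (𝓝 (∫ t, Ψ (F t) ∂P')) := by
  set μs : ι → ProbabilityMeasure ℂ := fun i => ⟨(P i).map (X i), Measure.isProbabilityMeasure_map (hX i)⟩
    with hμs
  set μ : ProbabilityMeasure ℂ := ⟨P'.map F, Measure.isProbabilityMeasure_map hF⟩ with hμ
  have hi : ∀ (Φ : ℂ → ℝ), Continuous Φ → ∀ i, ∫ z, Φ z ∂(μs i : Measure ℂ) = ∫ x, Φ (X i x) ∂(P i) := by
    intro Φ hΦ i
    exact integral_map (hX i) hΦ.aestronglyMeasurable
  have hi' : ∀ (Φ : ℂ → ℝ), Continuous Φ → ∫ z, Φ z ∂(μ : Measure ℂ) = ∫ x, Φ (F x) ∂P' := by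
    intro Φ hΦ
    exact integral_map hF hΦ.aestronglyMeasurable
  have h1 : Tendsto μs l (𝓝 μ) := by
    rw [tendsto_iff_forall_lipschitz_integral_tendsto]
    rintro Φ ⟨C, hC⟩ ⟨L, hL⟩
    simp only [hi Φ hL.continuous, hi' Φ hL.continuous]
    refine h Φ L hL (C + |Φ 0|) fun z => ?_
    have := hC z 0
    rw [Real.dist_eq] at this
    have h3 := abs_sub_abs_le_abs_sub (Φ z) (Φ 0)
    linarith
  rw [ProbabilityMeasure.tendsto_iff_forall_integral_tendsto] at h1
  have h2 := h1 (BoundedContinuousFunction.ofNormedAddCommGroup Ψ hΨ M hM)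
  simp only [BoundedContinuousFunction.coe_ofNormedAddCommGroup] at h2
  simp only [hi Ψ hΨ, hi' Ψ hΨ] at h2
  exact h2

end

end Pool.Agent.L0h50.DL
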