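import Mathlib
import Pool.Agent.L0h50.DL.Law

/-!
# The values of the twisted L-functions over the Dirichlet characters of a modulus
-/

set_option autoImplicit false

namespace Pool.Agent.L0h50.DL

open Finset Pool.Agent.Y722.HS MeasureTheory Filter Topology

section
variable {b : ℕ} {w : ℕ → Fin b → ℂ}

/-- The logarithm of the twisted L-function. -/
noncomputable def Gc (w : ℕ → Fin b → ℂ) (z : ℕ → ℂ) (ε : ℝ) : ℂ :=
  ∑' p : Nat.Primes, gl 1 (fun p j => z p * w p j) ε p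

/-- The constant of the second moment. -/
noncomputable def VC (b : ℕ) (C : ℝ) (q y : ℕ) (ε : ℝ) : ℝ :=
  3 * ((b : ℝ) ^ 2 * RT y) + 3 * (C * (b : ℝ) ^ 2 * (1 + Real.log (1 / ε)) ^ 2 / (q.totient : ℝ)) +
    3 * ((b : ℝ) ^ 2 * RT y ^ 2)

/-- Second moment of the tail over the characters. -/
theorem char_tail : ∃ C : ℝ, 1 ≤ C ∧ ∀ (q : ℕ) [NeZero q] (b : ℕ) (w : ℕ → Fin b → ℂ),
    (∀ p : ℕ, p.Prime → ∀ j, ‖w p j‖ ≤ 1) → ∀ ε : ℝ, 0 < ε → ε ≤ 1 → ∀ y : ℕ,
    EC q (fun χ => ‖Gc w (fun p => χ p) ε - GY w (fun p => χ p) y ε‖ ^ 2) ≤ VC b C q y ε := by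
  obtain ⟨C, hC1, hC⟩ := large_part
  refine ⟨C, hC1, fun q _ b w hw ε h0 h1 y => ?_⟩
  have hz : ∀ (χ : DirichletCharacter ℂ q) (p : ℕ), ‖χ p‖ ≤ 1 := fun χ p => χ.norm_le_one p
  have hfin : ∀ Y : ℕ, y ≤ Y → EC q (fun χ => ‖GY w (fun p => χ p) Y ε - GY w (fun p => χ p) y ε‖ ^ 2) ≤
      VC b C q y ε := by
    intro Y hY
    set D := PR Y \ PR y with hD
    set D1 := D.filter (fun p => p ≤ q) with hD1
    set D2 := D.filter (fun p => ¬ p ≤ q) with hD2
    set c : ℕ → ℂ := fun p => (∑ j, w p j) * (((p : ℝ) ^ (-1 - ε) : ℝ) : ℂ) with hc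
    have e1 : ∀ χ : DirichletCharacter ℂ q, ‖GY w (fun p => χ p) Y ε - GY w (fun p => χ p) y ε‖ ^ 2 ≤
        3 * ‖∑ p ∈ D1, c p * χ p‖ ^ 2 + 3 * ‖∑ p ∈ D2, c p * χ p‖ ^ 2 + 3 * ((b : ℝ) ^ 2 * RT y ^ 2) := by
      intro χ
      rw [GY_sub w _ hY]
      have e2 := part_le hw (hz χ) y ε h0.le D fun p hp => mem_diff hp
      have e3 : ∑ p ∈ D, c p * χ p = ∑ p ∈ D1, c p * χ p + ∑ p ∈ D2, c p * χ p :=
        (Finset.sum_filter_add_sum_filter_not D (fun p => p ≤ q) _).symm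
      have e4 : ‖∑ p ∈ D, gl 1 (fun p j => χ p * w p j) ε p‖ ≤
          ‖∑ p ∈ D1, c p * χ p‖ + ‖∑ p ∈ D2, c p * χ p‖ + b * RT y := by
        refine e2.trans ?_
        rw [e3]
        have := norm_add_le (∑ p ∈ D1, c p * χ p) (∑ p ∈ D2, c p * χ p)
        linarith
      have e5 := pow_le_pow_left₀ (norm_nonneg _) e4 2
      refine e5.trans ?_
      have g : ∀ a b c : ℝ, (a + b + c) ^ 2 ≤ 3 * a ^ 2 + 3 * b ^ 2 + 3 * c ^ 2 := by
        intro a b c
        nlinarith [sq_nonneg (a - b), sq_nonneg (a - c), sq_nonneg (b - c)]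
      refine (g _ _ _).trans (le_of_eq ?_)
      rw [mul_pow (b : ℝ)]
    refine (EC_mono e1).trans ?_
    rw [EC_add, EC_add, EC_mul, EC_mul, EC_const]
    have e6 := small_part (q := q) b y (fun p => ∑ j, w p j) (fun p hp => norm_A hw p hp) ε h0.le D1
      (fun p hp => by
        rw [hD1, Finset.mem_filter] at hp
        exact ⟨(mem_diff hp.1).1, (mem_diff hp.1).2, hp.2⟩)
    have e7 := hC q b (fun p => ∑ j, w p j) (fun p hp => norm_A hw p hp) ε h0 h1 D2
      (fun p hp => by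
        rw [hD2, Finset.mem_filter] at hp
        exact ⟨(mem_diff hp.1).1, by omega⟩)
    unfold VC
    linarith
  have hlim : Tendsto (fun Y => EC q (fun χ => ‖GY w (fun p => χ p) Y ε - GY w (fun p => χ p) y ε‖ ^ 2))
      atTop (𝓝 (EC q (fun χ => ‖Gc w (fun p => χ p) ε - GY w (fun p => χ p) y ε‖ ^ 2))) := by
    unfold EC
    apply Tendsto.div_const
    refine tendsto_finsetSum _ fun χ _ => ?_
    exact (((GY_tendsto hw (hz χ) ε h0).sub_const _).norm).pow 2
  refine le_of_tendsto hlim ?_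
  filter_upwards [eventually_ge_atTop y] with Y hY
  exact hfin Y hY

theorem GY_zero (w : ℕ → Fin b → ℂ) (z : ℕ → ℂ) (ε : ℝ) : GY w z 0 ε = 0 := by
  have h : PR 0 = ∅ := by
    ext p
    rw [mem_PR]
    simp only [Finset.notMem_empty, iff_false, not_and]
    intro h1 h2
    have := h2.pos
    omega
  unfold GY
  rw [h, Finset.sum_empty]

/-- The uniform measure on the characters. -/
noncomputable def PC (q : ℕ) : @Measure (DirichletCharacter ℂ q) ⊤ :=
  @Measure.map _ _ ⊤ ⊤ id (((q.totient : ENNReal)⁻¹) • @Measure.count _ ⊤)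

theorem PC_eq (q : ℕ) : PC q = ((q.totient : ENNReal)⁻¹) • @Measure.count (DirichletCharacter ℂ q) ⊤ := by
  unfold PC
  exact @Measure.map_id _ ⊤ _

theorem PC_prob (q : ℕ) [NeZero q] : @IsProbabilityMeasure _ ⊤ (PC q) := by
  letI : MeasurableSpace (DirichletCharacter ℂ q) := ⊤
  constructor
  rw [PC_eq, Measure.smul_apply, Measure.count_univ, smul_eq_mul]
  have h1 := DirichletCharacter.card_eq_totient_of_hasEnoughRootsOfUnity ℂ q
  have h2 : ENat.card (DirichletCharacter ℂ q) = (q.totient : ENat) := by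
    rw [← h1, ENat.card_eq_coe_natCard]
  rw [h2]
  have h3 : (q.totient : ENNReal) ≠ 0 := by
    have := Nat.totient_pos.2 (Nat.pos_of_ne_zero (NeZero.ne q))
    exact_mod_cast this.ne'
  have h4 : (q.totient : ENNReal) ≠ ⊤ := ENNReal.natCast_ne_top _
  have h5 : (((q.totient : ENat)) : ENNReal) = (q.totient : ENNReal) := by simp
  rw [h5]
  exact ENNReal.inv_mul_cancel h3 h4

theorem PC_integral {V : Type*} [NormedAddCommGroup V] [NormedSpace ℝ V] [CompleteSpace V] (q : ℕ) [NeZero q]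
    (f : DirichletCharacter ℂ q → V) :
    @integral _ _ _ _ ⊤ (PC q) f = ((q.totient : ℝ))⁻¹ • ∑ χ, f χ := by
  letI : MeasurableSpace (DirichletCharacter ℂ q) := ⊤
  have : MeasurableSingletonClass (DirichletCharacter ℂ q) := ⟨fun _ => trivial⟩
  rw [PC_eq, integral_smul_measure, integral_count]
  congr 1
  simp

end

end Pool.Agent.L0h50.DL
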