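import Mathlib
import Pool.Agent.L0h50.DL.CharLaw

/-!
# The limit law over the Dirichlet characters of a large prime modulus
-/

set_option autoImplicit false

namespace Pool.Agent.L0h50.DL

open Finset Pool.Agent.Y722.HS MeasureTheory Filter Topology

open Classical in
/-- An angle of a point of the unit circle. -/
noncomputable def ang (z : ℂ) : UnitAddCircle :=
  if h : ∃ t : UnitAddCircle, (fourier 1 t : ℂ) = z then h.choose else 0

theorem fourier_ang {z : ℂ} (hz : ‖z‖ = 1) : (fourier 1 (ang z) : ℂ) = z := by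
  have h : ∃ t : UnitAddCircle, (fourier 1 t : ℂ) = z := by
    refine ⟨((Complex.arg z / (2 * Real.pi) : ℝ) : UnitAddCircle), ?_⟩
    have h1 := @fourier_coe_apply (1 : ℝ) 1 (Complex.arg z / (2 * Real.pi))
    refine h1.trans ?_
    have h2 : (2 * Real.pi * Complex.I * (1 : ℤ) * ((Complex.arg z / (2 * Real.pi) : ℝ) : ℂ) / (1 : ℝ) : ℂ) =
        Complex.arg z * Complex.I := by
      have hpi : (Real.pi : ℂ) ≠ 0 := by exact_mod_cast Real.pi_ne_zero
      push_cast
      field_simp
    rw [h2]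
    have h3 := Complex.norm_mul_exp_arg_mul_I z
    rw [hz, Complex.ofReal_one, one_mul] at h3
    exact h3
  unfold ang
  rw [dif_pos h]
  exact h.choose_spec

theorem fourier_zpow (n : ℤ) (t : UnitAddCircle) : (fourier n t : ℂ) = (fourier 1 t : ℂ) ^ n := by
  rw [fourier_apply, fourier_apply, one_smul, AddCircle.toCircle_zsmul]
  simp

/-- The positive part of the monomial. -/
noncomputable def posPart {y : ℕ} (n : PR y → ℤ) : ℕ := ∏ p : PR y, (p : ℕ) ^ (n p).toNat

theorem posPart_pos {y : ℕ} (n : PR y → ℤ) : 0 < posPart n :=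
  Finset.prod_pos fun p _ => pow_pos (mem_PR.mp p.2).2.pos _

theorem dvd_posPart {y : ℕ} (n : PR y → ℤ) (p : PR y) : (p : ℕ) ∣ posPart n ↔ 0 < n p := by
  have hp := (mem_PR.mp p.2).2
  unfold posPart
  rw [Prime.dvd_finset_prod_iff hp.prime]
  constructor
  · rintro ⟨r, -, hr⟩
    have hr' := (mem_PR.mp r.2).2
    have h1 := hp.dvd_of_dvd_pow hr
    have h2 : (p : ℕ) = r := (Nat.prime_dvd_prime_iff_eq hp hr').mp h1
    have h3 : p = r := Subtype.ext h2
    subst h3
    by_contra hcon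
    push Not at hcon
    rw [Int.toNat_eq_zero.mpr hcon, pow_zero] at hr
    exact hp.one_lt.ne' (Nat.dvd_one.mp hr)
  · intro h
    refine ⟨p, Finset.mem_univ _, dvd_pow_self _ ?_⟩
    omega

theorem posPart_ne {y : ℕ} (n : PR y → ℤ) (hn : n ≠ 0) : posPart n ≠ posPart (-n) := by
  obtain ⟨p, hp⟩ := Function.ne_iff.mp hn
  intro h
  have h1 := dvd_posPart n p
  have h2 := dvd_posPart (-n) p
  rw [← h, Pi.neg_apply] at h2
  rw [Pi.zero_apply] at hp
  rcases lt_or_gt_of_ne hp with h3 | h3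
  · have h4 := h2.mpr (by omega)
    have h5 := h1.mp h4
    omega
  · have h4 := h1.mpr h3
    have h5 := h2.mp h4
    omega

theorem char_weyl {y : ℕ} (n : PR y → ℤ) (hn : n ≠ 0) (q : ℕ) [hq : Fact q.Prime] (hy : y < q)
    (h1 : posPart n < q) (h2 : posPart (-n) < q) :
    ∑ χ : DirichletCharacter ℂ q, ∏ p : PR y, (fourier (n p) (ang (χ (p : ℕ))) : ℂ) = 0 := by
  have hunit : ∀ p : PR y, IsUnit ((p : ℕ) : ZMod q) := by
    intro p
    have hp := mem_PR.mp p.2
    rw [ZMod.isUnit_iff_coprime]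
    exact (Nat.coprime_primes hp.2 hq.out).mpr (by omega)
  have hnorm : ∀ (χ : DirichletCharacter ℂ q) (p : PR y), ‖χ ((p : ℕ) : ZMod q)‖ = 1 := by
    intro χ p
    obtain ⟨u, hu⟩ := hunit p
    rw [← hu]
    exact χ.unit_norm_eq_one u
  have h3 : ∀ χ : DirichletCharacter ℂ q, ∏ p : PR y, (fourier (n p) (ang (χ (p : ℕ))) : ℂ) =
      χ ((posPart n : ℕ) : ZMod q) * star (χ ((posPart (-n) : ℕ) : ZMod q)) := by
    intro χ
    unfold posPart
    push_cast
    rw [map_prod, map_prod, star_prod, ← Finset.prod_mul_distrib]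
    refine Finset.prod_congr rfl fun p _ => ?_
    rw [fourier_zpow, fourier_ang (hnorm χ p), map_pow, map_pow, star_pow]
    have h4 : star (χ ((p : ℕ) : ZMod q)) = (χ ((p : ℕ) : ZMod q))⁻¹ := by
      rw [MulChar.star_apply', MulChar.inv_apply_eq_inv']
    rw [h4, Pi.neg_apply]
    have hne : χ ((p : ℕ) : ZMod q) ≠ 0 := by
      intro h0
      have := hnorm χ p
      rw [h0, norm_zero] at this
      norm_num at this
    rw [← zpow_natCast, ← zpow_natCast, inv_zpow, ← zpow_neg, ← zpow_add₀ hne]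
    congr 1
    omega
  rw [Finset.sum_congr rfl fun χ _ => h3 χ, char_pair, if_neg]
  rintro ⟨-, h4⟩
  have h5 := (ZMod.natCast_eq_natCast_iff' _ _ _).mp h4
  rw [Nat.mod_eq_of_lt h1, Nat.mod_eq_of_lt h2] at h5
  exact posPart_ne n hn h5.symm

section
variable {b : ℕ} {w : ℕ → Fin b → ℂ}

/-- Continuity in `ε` at `0`, uniformly on the torus. -/
theorem GY_eps (hw : ∀ p : ℕ, p.Prime → ∀ j, ‖w p j‖ ≤ 1) (y : ℕ) (η : ℝ) (hη : 0 < η) :
    ∃ δ : ℝ, 0 < δ ∧ ∀ ε : ℝ, 0 ≤ ε → ε ≤ 1 → ε < δ → ∀ s : UnitAddTorus (PR y),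
      ‖GY w (ext y s) y ε - GY w (ext y s) y 0‖ ≤ η := by
  have h1 : Continuous fun t : UnitAddTorus (PR y) × Set.Icc (0 : ℝ) 1 => GY w (ext y t.1) y t.2.1 :=
    GY_cont hw (z := fun t : UnitAddTorus (PR y) × Set.Icc (0 : ℝ) 1 => ext y t.1)
      (ε := fun t : UnitAddTorus (PR y) × Set.Icc (0 : ℝ) 1 => t.2.1) (fun t p => norm_ext y t.1 p) y
      (fun p _ => (cont_ext y p).comp continuous_fst) (fun t => t.2.2.1)
      (continuous_subtype_val.comp continuous_snd)
  have h2 := CompactSpace.uniformContinuous_of_continuous h1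
  rw [Metric.uniformContinuous_iff] at h2
  obtain ⟨δ, hδ, h3⟩ := h2 η hη
  refine ⟨δ, hδ, fun ε h0 h1 hε s => ?_⟩
  have h4 := @h3 (s, ⟨ε, h0, h1⟩) (s, ⟨0, le_rfl, zero_le_one⟩) (by
    rw [Prod.dist_eq, dist_self, Subtype.dist_eq, Real.dist_eq, sub_zero, abs_of_nonneg h0]
    exact max_lt hδ hε)
  rw [dist_eq_norm] at h4
  exact h4.le

/-- **The limit law over the characters.** -/
theorem char_law (hw : ∀ p : ℕ, p.Prime → ∀ j, ‖w p j‖ ≤ 1) {F : Om → ℂ} (hF : Integrable F mu)
    (hF' : ∀ y, ∫ t, ‖GY w (ez t) y 0 - F t‖ ∂mu ≤ ER b y) (q : ℕ → ℕ) (hq : ∀ i, (q i).Prime)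
    (hqt : Tendsto q atTop atTop) (ε : ℕ → ℝ) (hε : ∀ i, 0 < ε i ∧ ε i ≤ 1) (hεt : Tendsto ε atTop (𝓝 0))
    (hεq : Tendsto (fun i => Real.log (1 / ε i) ^ 2 / q i) atTop (𝓝 0))
    (Ψ : ℂ → ℝ) (hΨ : Continuous Ψ) (M : ℝ) (hM : ∀ z, |Ψ z| ≤ M) :
    Tendsto (fun i => (∑ χ : DirichletCharacter ℂ (q i), Ψ (Gc w (fun p => χ p) (ε i))) / ((q i).totient : ℝ))
      atTop (𝓝 (∫ t, Ψ (F t) ∂mu)) := by
  have hne : ∀ i, NeZero (q i) := fun i => ⟨(hq i).ne_zero⟩
  let ms : ∀ i, MeasurableSpace (DirichletCharacter ℂ (q i)) := fun _ => ⊤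
  have hprob : ∀ i, IsProbabilityMeasure (PC (q i)) := fun i => PC_prob (q i)
  set Z : ∀ i, DirichletCharacter ℂ (q i) → ℕ → UnitAddCircle := fun i χ p => ang (χ (p : ZMod (q i))) with hZ
  set X : ∀ i, DirichletCharacter ℂ (q i) → ℂ := fun i χ => Gc w (fun p => χ p) (ε i) with hX
  have hmeas : ∀ (i : ℕ) {β : Type} [MeasurableSpace β] (f : DirichletCharacter ℂ (q i) → β),
      Measurable f := fun i β _ f => fun _ _ => trivial
  have hint : ∀ (i : ℕ) (f : DirichletCharacter ℂ (q i) → ℂ), Integrable f (PC (q i)) := by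
    intro i f
    have hfin : IsFiniteMeasure (PC (q i)) := inferInstance
    exact Integrable.mono' (integrable_const (∑ χ, ‖f χ‖)) (hmeas i f).aestronglyMeasurable
      (Eventually.of_forall fun χ => Finset.single_le_sum (f := fun χ => ‖f χ‖)
        (fun _ _ => norm_nonneg _) (Finset.mem_univ χ))
  have htot : ∀ i, ((q i).totient : ℝ) = (q i : ℝ) - 1 := by
    intro i
    rw [Nat.totient_prime (hq i), Nat.cast_sub (hq i).one_lt.le]
    simp
  obtain ⟨C, hC1, hC⟩ := char_tail
  have hconv := to_cont (l := atTop) (fun i => PC (q i)) X (fun i => (hmeas i (X i)).aemeasurable) mu F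
    hF.aestronglyMeasurable.aemeasurable (fun Φ L hΦ M hM => ?_) Ψ hΨ M hM
  · refine hconv.congr fun i => ?_
    have h1 := PC_integral (q i) (fun χ => Ψ (X i χ))
    refine h1.trans ?_
    rw [smul_eq_mul, div_eq_inv_mul]
  · refine family_lip hw hF hF' (l := atTop) (fun i => PC (q i)) Z (fun i p => hmeas i _) X
      (fun i => hint i _) (fun y n hn => ?_) (fun η hη => ?_) hΦ hM
    · -- Weyl
      refine tendsto_const_nhds.congr' ?_
      filter_upwards [hqt.eventually_gt_atTop y, hqt.eventually_gt_atTop (posPart n),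
        hqt.eventually_gt_atTop (posPart (-n))] with i h1 h2 h3
      have := Fact.mk (hq i)
      rw [PC_integral]
      have h4 := char_weyl n hn (q i) h1 h2 h3
      simp only [hZ]
      rw [h4, smul_zero]
    · -- the tail
      have h1 : Tendsto (fun y => 3 * ((b : ℝ) ^ 2 * RT y) + 3 * ((b : ℝ) ^ 2 * RT y ^ 2)) atTop
          (𝓝 (3 * ((b : ℝ) ^ 2 * 0) + 3 * ((b : ℝ) ^ 2 * 0 ^ 2))) :=
        ((RT_tendsto.const_mul _).const_mul _).add (((RT_tendsto.pow 2).const_mul _).const_mul _)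
      have e0 : 3 * ((b : ℝ) ^ 2 * 0) + 3 * ((b : ℝ) ^ 2 * 0 ^ 2) = 0 := by simp
      rw [e0] at h1
      have hη2 : 0 < (η / 2) ^ 2 / 2 := by positivity
      obtain ⟨y₀, hy₀⟩ := eventually_atTop.mp (h1.eventually (gt_mem_nhds hη2))
      refine ⟨y₀, fun y hy => ?_⟩
      obtain ⟨δ, hδ, hδ'⟩ := GY_eps hw y (η / 2) (by positivity)
      -- the middle term tends to zero
      have h2 : Tendsto (fun i => 3 * (C * (b : ℝ) ^ 2 * (1 + Real.log (1 / ε i)) ^ 2 /
          ((q i).totient : ℝ))) atTop (𝓝 0) := by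
        have h3 : Tendsto (fun i => (1 : ℝ) / q i) atTop (𝓝 0) :=
          tendsto_one_div_atTop_nhds_zero_nat.comp hqt
        have h4 : Tendsto (fun i => 3 * (C * (b : ℝ) ^ 2 * (4 * ((1 : ℝ) / q i) +
            4 * (Real.log (1 / ε i) ^ 2 / q i)))) atTop (𝓝 (3 * (C * (b : ℝ) ^ 2 * (4 * 0 + 4 * 0)))) :=
          (((h3.const_mul _).add (hεq.const_mul _)).const_mul _).const_mul _
        simp only [mul_zero, add_zero] at h4
        refine squeeze_zero (fun i => ?_) (fun i => ?_) h4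
        · positivity
        · have h5 : (0 : ℝ) < q i := by exact_mod_cast (hq i).pos
          have h6 : (2 : ℝ) ≤ q i := by exact_mod_cast (hq i).two_le
          have h11 : (1 + Real.log (1 / ε i)) ^ 2 / ((q i : ℝ) - 1) ≤
              4 * ((1 : ℝ) / q i) + 4 * (Real.log (1 / ε i) ^ 2 / q i) := by
            have e : 4 * ((1 : ℝ) / q i) + 4 * (Real.log (1 / ε i) ^ 2 / q i) =
                (4 + 4 * Real.log (1 / ε i) ^ 2) / q i := by ring
            rw [e, div_le_div_iff₀ (by linarith) h5]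
            have h8 : (q i : ℝ) ≤ 2 * (q i - 1) := by linarith
            have h9 : (1 + Real.log (1 / ε i)) ^ 2 ≤ 2 + 2 * Real.log (1 / ε i) ^ 2 := by
              nlinarith [sq_nonneg (1 - Real.log (1 / ε i))]
            calc _ ≤ (2 + 2 * Real.log (1 / ε i) ^ 2) * (2 * ((q i : ℝ) - 1)) := by gcongr
              _ = _ := by ring
          rw [htot]
          calc _ = 3 * (C * (b : ℝ) ^ 2 * ((1 + Real.log (1 / ε i)) ^ 2 / ((q i : ℝ) - 1))) := by ring
            _ ≤ _ := by gcongr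
      filter_upwards [hqt.eventually_gt_atTop y, h2.eventually (gt_mem_nhds hη2),
        hεt.eventually (gt_mem_nhds hδ)] with i hi1 hi2 hi3
      have := Fact.mk (hq i)
      have hfin : IsFiniteMeasure (PC (q i)) := inferInstance
      have hzχ : ∀ (χ : DirichletCharacter ℂ (q i)) (p : ℕ), p ∈ PR y →
          (fourier 1 (Z i χ p) : ℂ) = χ (p : ZMod (q i)) := by
        intro χ p hp
        apply fourier_ang
        have hp' := mem_PR.mp hp
        have hu : IsUnit ((p : ℕ) : ZMod (q i)) := by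
          rw [ZMod.isUnit_iff_coprime]
          exact (Nat.coprime_primes hp'.2 (hq i)).mpr (by omega)
        obtain ⟨u, hu⟩ := hu
        rw [← hu]
        exact χ.unit_norm_eq_one u
      have e1 : ∀ χ : DirichletCharacter ℂ (q i),
          ‖X i χ - GY w (fun p => fourier 1 (Z i χ p)) y 0‖ ≤
            ‖X i χ - GY w (fun p => χ p) y (ε i)‖ + η / 2 := by
        intro χ
        have e2 : GY w (fun p => fourier 1 (Z i χ p)) y 0 =
            GY w (ext y (fun p : PR y => Z i χ p)) y 0 := by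
          apply GY_congr
          intro p hp
          unfold ext
          rw [dif_pos hp]
        have e3 : GY w (fun p => χ p) y (ε i) = GY w (ext y (fun p : PR y => Z i χ p)) y (ε i) := by
          apply GY_congr
          intro p hp
          unfold ext
          rw [dif_pos hp]
          exact (hzχ χ p hp).symm
        have e4 := hδ' (ε i) (hε i).1.le (hε i).2 hi3 (fun p : PR y => Z i χ p)
        rw [← e2, ← e3] at e4
        have e5 := norm_sub_le_norm_sub_add_norm_sub (X i χ) (GY w (fun p => χ p) y (ε i))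
          (GY w (fun p => fourier 1 (Z i χ p)) y 0)
        linarith
      have e6 : ∫ χ, ‖X i χ - GY w (fun p => χ p) y (ε i)‖ ∂(PC (q i)) ≤ η / 2 := by
        have e7 := mean_sq (P := PC (q i)) (g := fun χ => ‖X i χ - GY w (fun p => χ p) y (ε i)‖)
          ((hint i _).norm) (by
            have := (hint i (fun χ => (((‖X i χ - GY w (fun p => χ p) y (ε i)‖ ^ 2 : ℝ)) : ℂ))).re
            simpa using this)
        have e8 := hC (q i) b w hw (ε i) (hε i).1 (hε i).2 y
        have e9 : ∫ χ, ‖X i χ - GY w (fun p => χ p) y (ε i)‖ ^ 2 ∂(PC (q i)) =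
            EC (q i) (fun χ => ‖Gc w (fun p => χ p) (ε i) - GY w (fun p => χ p) y (ε i)‖ ^ 2) := by
          rw [PC_integral, EC, smul_eq_mul, div_eq_inv_mul]
        rw [e9] at e7
        have e10 : VC b C (q i) y (ε i) ≤ (η / 2) ^ 2 := by
          have := hy₀ y hy
          unfold VC
          linarith
        exact le_of_sq_le_sq (e7.trans (e8.trans e10)) (by positivity)
      calc _ ≤ ∫ χ, (‖X i χ - GY w (fun p => χ p) y (ε i)‖ + η / 2) ∂(PC (q i)) := by
            apply integral_mono_of_nonneg (Eventually.of_forall fun χ => norm_nonneg _)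
              (((hint i _).norm).add (integrable_const _)) (Eventually.of_forall e1)
        _ = ∫ χ, ‖X i χ - GY w (fun p => χ p) y (ε i)‖ ∂(PC (q i)) + η / 2 := by
            rw [integral_add ((hint i _).norm) (integrable_const _)]
            simp
        _ ≤ η := by linarith

end

end Pool.Agent.L0h50.DL
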