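import Mathlib
import Pool.Agent.L0h50.DL.CharLaw2

/-!
# The L-functions twisted by the Dirichlet characters: summary
-/

set_option autoImplicit false

namespace Pool.Agent.L0h50.DL

open Finset Pool.Agent.Y722.HS MeasureTheory Filter Topology

/-- The point `n/2 + 1 + iτ` of the edge of absolute convergence. -/
noncomputable def edge (n : ℕ) (τ : ℝ) : ℂ := n / 2 + 1 + τ * Complex.I

/-- The Euler product `∏_p ∏_j (1 - χ(p) α_{p,j} p^{-s})⁻¹`. -/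
noncomputable def LX {b q : ℕ} (α : ℕ → Fin b → ℂ) (χ : DirichletCharacter ℂ q) (s : ℂ) : ℂ :=
  ∏' p : Nat.Primes, ∏ j, (1 - χ ((p : ℕ) : ZMod q) * α p j * ((p : ℕ) : ℂ) ^ (-s))⁻¹

/-- The random Euler product over the primes up to `y` at the edge: `χ(p)` is replaced by independent random points
`exp (2 π i t_p)` of the unit circle. -/
noncomputable def randomProduct {b : ℕ} (α : ℕ → Fin b → ℂ) (s : ℂ) (y : ℕ) (t : ℕ → UnitAddCircle) : ℂ :=
  ∏ p ∈ (Finset.range (y + 1)).filter Nat.Prime, ∏ j,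
    (1 - (fourier 1 (t p) : ℂ) * α p j * (p : ℂ) ^ (-s))⁻¹

/-- `ν` is the law of the random Euler product: the limit of the laws of the finite products. -/
def IsLaw {b : ℕ} (α : ℕ → Fin b → ℂ) (s : ℂ) (ν : Measure ℂ) : Prop :=
  IsProbabilityMeasure ν ∧ ∀ Ψ : ℂ → ℝ, Continuous Ψ → (∃ M, ∀ z, |Ψ z| ≤ M) →
    Tendsto (fun y : ℕ => ∫ t, Ψ (randomProduct α s y t)
      ∂(Measure.infinitePi fun _ : ℕ => (volume : Measure UnitAddCircle))) atTop (𝓝 (∫ z, Ψ z ∂ν))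

section
variable {b : ℕ}

/-- The normalised eigenvalues. -/
noncomputable def nw (n : ℕ) (τ : ℝ) (α : ℕ → Fin b → ℂ) (p : ℕ) (j : Fin b) : ℂ :=
  α p j * (p : ℂ) ^ (-((n : ℂ) / 2 + τ * Complex.I))

theorem nw_bd {n : ℕ} {τ : ℝ} {α : ℕ → Fin b → ℂ}
    (hα : ∀ p : ℕ, p.Prime → ∀ j, ‖α p j‖ ≤ (p : ℝ) ^ ((n : ℝ) / 2)) :
    ∀ p : ℕ, p.Prime → ∀ j, ‖nw n τ α p j‖ ≤ 1 := by
  intro p hp j
  have hp0 : (0 : ℝ) < p := by exact_mod_cast hp.pos
  have h1 : ‖(p : ℂ) ^ (-((n : ℂ) / 2 + τ * Complex.I))‖ = (p : ℝ) ^ (-((n : ℝ) / 2)) := by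
    have : ((p : ℝ) : ℂ) = (p : ℂ) := by push_cast; rfl
    rw [← this, Complex.norm_cpow_eq_rpow_re_of_pos hp0]
    congr 1
    have e : -((n : ℂ) / 2 + τ * Complex.I) = ((-((n : ℝ) / 2) : ℝ) : ℂ) + ((-τ : ℝ) : ℂ) * Complex.I := by
      push_cast
      ring
    rw [e]
    simp
  unfold nw
  rw [norm_mul, h1]
  calc _ ≤ (p : ℝ) ^ ((n : ℝ) / 2) * (p : ℝ) ^ (-((n : ℝ) / 2)) := by
        gcongr
        exact hα p hp j
    _ = 1 := by rw [← Real.rpow_add hp0, add_neg_cancel, Real.rpow_zero]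

theorem LX_eq {n : ℕ} {τ : ℝ} {α : ℕ → Fin b → ℂ}
    (hα : ∀ p : ℕ, p.Prime → ∀ j, ‖α p j‖ ≤ (p : ℝ) ^ ((n : ℝ) / 2)) {q : ℕ}
    (χ : DirichletCharacter ℂ q) (ε : ℝ) (hε : 0 < ε) :
    LX α χ (edge n τ + ε) = Complex.exp (Gc (nw n τ α) (fun p => χ p) ε) := by
  have h1 := LP_eq (n := 1) (α := fun p j => χ ((p : ℕ) : ZMod q) * nw n τ α p j) hε
    (bd1 (nw_bd hα) (fun p => χ.norm_le_one p))
  rw [Gc, ← h1]
  unfold LX LP
  refine tprod_congr fun p => Finset.prod_congr rfl fun j _ => ?_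
  have hp0 : ((p : ℕ) : ℂ) ≠ 0 := by exact_mod_cast p.2.ne_zero
  have e : -(edge n τ + (ε : ℂ)) = -((n : ℂ) / 2 + τ * Complex.I) + -ss 1 ε := by
    unfold edge ss
    push_cast
    ring
  rw [e, Complex.cpow_add _ _ hp0]
  simp only [nw]
  congr 2
  ring

theorem rp_eq {n : ℕ} {τ : ℝ} {α : ℕ → Fin b → ℂ}
    (hα : ∀ p : ℕ, p.Prime → ∀ j, ‖α p j‖ ≤ (p : ℝ) ^ ((n : ℝ) / 2)) (y : ℕ) (t : Om) :
    randomProduct α (edge n τ) y t = Complex.exp (GY (nw n τ α) (ez t) y 0) := by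
  unfold randomProduct GY
  rw [Complex.exp_sum]
  refine Finset.prod_congr rfl fun p hp => ?_
  unfold gl
  rw [Complex.exp_sum]
  refine Finset.prod_congr rfl fun j _ => ?_
  have hpp : p.Prime := (Finset.mem_filter.mp hp).2
  have hp0 : (p : ℂ) ≠ 0 := by exact_mod_cast hpp.ne_zero
  have e : -(edge n τ) = -((n : ℂ) / 2 + τ * Complex.I) + -ss 1 0 := by
    unfold edge ss
    push_cast
    ring
  have e2 : (fourier 1 (t p) : ℂ) * α p j * (p : ℂ) ^ (-edge n τ) =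
      ez t p * nw n τ α p j * (p : ℂ) ^ (-ss 1 0) := by
    rw [e, Complex.cpow_add _ _ hp0, nw, ez]
    ring
  rw [e2, Complex.exp_log]
  apply inv_ne_zero
  intro h3
  have h5 : ‖ez t p * nw n τ α p j * (p : ℂ) ^ (-ss 1 0)‖ ≤ _ :=
    norm_z (n := 1) (ε := 0) (α := fun p j => ez t p * nw n τ α p j)
    (bd1 (nw_bd hα) (fun p => (norm_ez t p).le)) p hpp j
  have h6 := rpow_le_half (ε := 0) le_rfl p hpp
  have h4 : ‖ez t p * nw n τ α p j * (p : ℂ) ^ (-ss 1 0)‖ = 1 := by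
    rw [← sub_eq_zero.mp h3, norm_one]
  rw [h4] at h5
  have h7 : (1 : ℝ) ≤ 1 / 2 := h5.trans h6
  norm_num at h7

/-- The second moment. -/
theorem second_moment : ∀ b : ℕ, ∃ C : ℝ, 0 < C ∧ ∀ (n : ℕ) (τ : ℝ) (α : ℕ → Fin b → ℂ),
    (∀ p : ℕ, p.Prime → ∀ j, ‖α p j‖ ≤ (p : ℝ) ^ ((n : ℝ) / 2)) → ∀ (q : ℕ) [NeZero q] (ε : ℝ),
    0 < ε → ε ≤ 1 → ∑ χ : DirichletCharacter ℂ q, Real.log ‖LX α χ (edge n τ + ε)‖ ^ 2 ≤
      C * (q.totient + Real.log (1 / ε) ^ 2) := by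
  intro b
  obtain ⟨C, hC1, hC⟩ := char_tail
  refine ⟨3 * ((b : ℝ) ^ 2 * RT 0) + 3 * ((b : ℝ) ^ 2 * RT 0 ^ 2) + 6 * (C * (b : ℝ) ^ 2) + 1, ?_, ?_⟩
  · have := RT_nonneg 0
    positivity
  intro n τ α hα q hq ε h0 h1
  have hphi : (1 : ℝ) ≤ q.totient := by
    have := Nat.totient_pos.2 (Nat.pos_of_ne_zero (NeZero.ne q))
    exact_mod_cast this
  have h2 := hC q b (nw n τ α) (nw_bd hα) ε h0 h1 0
  simp only [GY_zero, sub_zero] at h2
  have h3 : EC q (fun χ => Real.log ‖LX α χ (edge n τ + ε)‖ ^ 2) ≤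
      EC q (fun χ => ‖Gc (nw n τ α) (fun p => χ p) ε‖ ^ 2) := by
    apply EC_mono
    intro χ
    rw [LX_eq hα χ ε h0, Complex.norm_exp, Real.log_exp]
    exact sq_le_sq' (by
      have := Complex.abs_re_le_norm (Gc (nw n τ α) (fun p => χ p) ε)
      have := neg_abs_le (Gc (nw n τ α) (fun p => χ p) ε).re
      linarith) (Complex.re_le_norm _)
  have h4 := h3.trans h2
  unfold EC VC at h4
  rw [div_le_iff₀ (by linarith)] at h4
  refine h4.trans ?_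
  have hR := RT_nonneg 0
  have h5 : (1 + Real.log (1 / ε)) ^ 2 ≤ 2 + 2 * Real.log (1 / ε) ^ 2 := by
    nlinarith [sq_nonneg (1 - Real.log (1 / ε))]
  have h6 : 3 * (C * (b : ℝ) ^ 2 * (1 + Real.log (1 / ε)) ^ 2 / (q.totient : ℝ)) * q.totient =
      3 * (C * (b : ℝ) ^ 2) * (1 + Real.log (1 / ε)) ^ 2 := by
    field_simp
  have h7 : 3 * (C * (b : ℝ) ^ 2) * (1 + Real.log (1 / ε)) ^ 2 ≤
      6 * (C * (b : ℝ) ^ 2) * (q.totient + Real.log (1 / ε) ^ 2) := by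
    calc _ ≤ 3 * (C * (b : ℝ) ^ 2) * (2 + 2 * Real.log (1 / ε) ^ 2) := by gcongr
      _ = 6 * (C * (b : ℝ) ^ 2) * (1 + Real.log (1 / ε) ^ 2) := by ring
      _ ≤ _ := by gcongr
  set L := Real.log (1 / ε) ^ 2 with hL
  have hL0 : 0 ≤ L := by positivity
  have h8 : (3 * ((b : ℝ) ^ 2 * RT 0) + 3 * ((b : ℝ) ^ 2 * RT 0 ^ 2)) * q.totient ≤
      (3 * ((b : ℝ) ^ 2 * RT 0) + 3 * ((b : ℝ) ^ 2 * RT 0 ^ 2)) * (q.totient + L) := by
    gcongr
    linarith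
  have h9 : (0 : ℝ) ≤ q.totient + L := by positivity
  rw [add_mul, add_mul, h6]
  nlinarith

/-- The exceptional set. -/
theorem few (b : ℕ) : ∃ C : ℝ, 0 < C ∧ ∀ (n : ℕ) (τ : ℝ) (α : ℕ → Fin b → ℂ),
    (∀ p : ℕ, p.Prime → ∀ j, ‖α p j‖ ≤ (p : ℝ) ^ ((n : ℝ) / 2)) → ∀ (q : ℕ) [NeZero q] (ε : ℝ),
    Real.exp (-Real.sqrt q.totient) ≤ ε → ε ≤ 1 → ∀ δ : ℝ, 0 < δ →
      ({χ : DirichletCharacter ℂ q | LX α χ (edge n τ + ε) = 0 ∨
        C / Real.sqrt δ < |Real.log ‖LX α χ (edge n τ + ε)‖|}.ncard : ℝ) ≤ δ * q.totient := by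
  obtain ⟨C, hC, h⟩ := second_moment b
  refine ⟨Real.sqrt (2 * C), Real.sqrt_pos.mpr (by positivity), fun n τ α hα q hq ε h0 h1 δ hδ => ?_⟩
  classical
  have hεp : 0 < ε := lt_of_lt_of_le (Real.exp_pos _) h0
  have hphi : (1 : ℝ) ≤ q.totient := by
    have := Nat.totient_pos.2 (Nat.pos_of_ne_zero (NeZero.ne q))
    exact_mod_cast this
  have h2 := h n τ α hα q ε hεp h1
  have h3 : Real.log (1 / ε) ^ 2 ≤ q.totient := by
    have h4 : Real.log (1 / ε) ≤ Real.sqrt q.totient := by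
      rw [one_div, Real.log_inv]
      have := Real.log_le_log (Real.exp_pos _) h0
      rw [Real.log_exp] at this
      linarith
    have h5 : 0 ≤ Real.log (1 / ε) := Real.log_nonneg (by rw [le_div_iff₀ hεp]; linarith)
    calc _ ≤ Real.sqrt q.totient ^ 2 := by gcongr
      _ = _ := Real.sq_sqrt (by linarith)
  set S : Finset (DirichletCharacter ℂ q) := Finset.univ.filter
    (fun χ => Real.sqrt (2 * C) / Real.sqrt δ < |Real.log ‖LX α χ (edge n τ + ε)‖|) with hS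
  have h4 : {χ : DirichletCharacter ℂ q | LX α χ (edge n τ + ε) = 0 ∨
      Real.sqrt (2 * C) / Real.sqrt δ < |Real.log ‖LX α χ (edge n τ + ε)‖|} = (S : Set _) := by
    ext χ
    simp only [hS, Finset.coe_filter, Finset.mem_univ, true_and]
    constructor
    · rintro (h | h)
      · exfalso
        rw [LX_eq hα χ ε hεp] at h
        exact Complex.exp_ne_zero _ h
      · exact h
    · exact Or.inr
  rw [h4, Set.ncard_coe_finset]
  have h5 : (S.card : ℝ) * (2 * C / δ) ≤ C * (2 * q.totient) := by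
    calc (S.card : ℝ) * (2 * C / δ) = ∑ _χ ∈ S, 2 * C / δ := by rw [Finset.sum_const, nsmul_eq_mul]
      _ ≤ ∑ χ ∈ S, Real.log ‖LX α χ (edge n τ + ε)‖ ^ 2 := by
          refine Finset.sum_le_sum fun χ hχ => ?_
          have h6 := (Finset.mem_filter.mp hχ).2
          have h7 : (Real.sqrt (2 * C) / Real.sqrt δ) ^ 2 = 2 * C / δ := by
            rw [div_pow, Real.sq_sqrt (by positivity), Real.sq_sqrt hδ.le]
          rw [← h7, ← sq_abs (Real.log _)]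
          exact pow_le_pow_left₀ (by positivity) h6.le 2
      _ ≤ ∑ χ, Real.log ‖LX α χ (edge n τ + ε)‖ ^ 2 :=
          Finset.sum_le_sum_of_subset_of_nonneg (Finset.subset_univ _) fun _ _ _ => by positivity
      _ ≤ C * (q.totient + Real.log (1 / ε) ^ 2) := h2
      _ ≤ C * (2 * q.totient) := by gcongr; linarith
  have h6 : (S.card : ℝ) * (2 * C) ≤ δ * q.totient * (2 * C) := by
    have : (S.card : ℝ) * (2 * C / δ) = (S.card : ℝ) * (2 * C) / δ := by ring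
    rw [this, div_le_iff₀ hδ] at h5
    linarith
  exact le_of_mul_le_mul_right h6 (by positivity)

/-- The limit law. -/
theorem exists_law {n : ℕ} {τ : ℝ} {α : ℕ → Fin b → ℂ}
    (hα : ∀ p : ℕ, p.Prime → ∀ j, ‖α p j‖ ≤ (p : ℝ) ^ ((n : ℝ) / 2)) : ∃ ν : Measure ℂ,
    IsLaw α (edge n τ) ν ∧ ν {0} = 0 ∧ ∀ (q : ℕ → ℕ), (∀ i, (q i).Prime) → Tendsto q atTop atTop →
      ∀ ε : ℕ → ℝ, (∀ i, 0 < ε i ∧ ε i ≤ 1) → Tendsto ε atTop (𝓝 0) →
      Tendsto (fun i => Real.log (1 / ε i) ^ 2 / q i) atTop (𝓝 0) →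
      ∀ Ψ : ℂ → ℝ, Continuous Ψ → (∃ M, ∀ z, |Ψ z| ≤ M) →
        Tendsto (fun i => (∑ χ : DirichletCharacter ℂ (q i), Ψ (LX α χ (edge n τ + ε i))) /
          ((q i).totient : ℝ)) atTop (𝓝 (∫ z, Ψ z ∂ν)) := by
  obtain ⟨F, hF, hF'⟩ := exists_limit (w := nw n τ α) (nw_bd hα)
  have hFm : AEMeasurable (fun t => Complex.exp (F t)) mu :=
    (Complex.continuous_exp.measurable).comp_aemeasurable hF.aestronglyMeasurable.aemeasurable
  have hint : ∀ Ψ : ℂ → ℝ, Continuous Ψ →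
      ∫ z, Ψ z ∂(mu.map fun t => Complex.exp (F t)) = ∫ t, Ψ (Complex.exp (F t)) ∂mu := by
    intro Ψ hΨ
    exact integral_map hFm hΨ.aestronglyMeasurable
  refine ⟨mu.map fun t => Complex.exp (F t), ⟨Measure.isProbabilityMeasure_map hFm, ?_⟩, ?_, ?_⟩
  · rintro Ψ hΨ ⟨M, hM⟩
    rw [hint Ψ hΨ]
    have h1 := to_cont (l := atTop) (fun _ : ℕ => mu) (fun y t => GY (nw n τ α) (ez t) y 0)
      (fun y => (f_cont (nw_bd hα) y).measurable.aemeasurable) mu F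
      hF.aestronglyMeasurable.aemeasurable (fun Φ L hΦ M hM => ?_) (fun z => Ψ (Complex.exp z))
      (hΨ.comp Complex.continuous_exp) M fun z => hM _
    · refine h1.congr fun y => ?_
      change ∫ t, Ψ (Complex.exp (GY (nw n τ α) (ez t) y 0)) ∂mu = ∫ t, Ψ (randomProduct α (edge n τ) y t) ∂mu
      congr 1
      funext t
      rw [rp_eq hα]
    · rw [tendsto_iff_dist_tendsto_zero]
      have h2 : Tendsto (fun y => (L : ℝ) * ER b y) atTop (𝓝 0) := by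
        have := (ER_tendsto b).const_mul (L : ℝ)
        rwa [mul_zero] at this
      refine squeeze_zero (fun _ => dist_nonneg) (fun y => ?_) h2
      rw [Real.dist_eq]
      exact (lip_int (f_int (nw_bd hα) y).aestronglyMeasurable hF.aestronglyMeasurable
        ((f_int (nw_bd hα) y).sub hF) hΦ hM).trans (mul_le_mul_of_nonneg_left (hF' y) L.2)
  · rw [Measure.map_apply_of_aemeasurable hFm (measurableSet_singleton 0)]
    have h1 : (fun t => Complex.exp (F t)) ⁻¹' {0} = ∅ := by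
      ext t
      simp [Complex.exp_ne_zero]
    rw [h1, measure_empty]
  · rintro q hq hqt ε hε hεt hεq Ψ hΨ ⟨M, hM⟩
    rw [hint Ψ hΨ]
    refine (char_law (nw_bd hα) hF hF' q hq hqt ε hε hεt hεq (fun z => Ψ (Complex.exp z))
      (hΨ.comp Complex.continuous_exp) M fun z => hM _).congr fun i => ?_
    congr 1
    refine Finset.sum_congr rfl fun χ _ => ?_
    rw [LX_eq hα χ (ε i) (hε i).1]

end

end Pool.Agent.L0h50.DL
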